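import Pool.Agent.Helper31.CY.Defs

/-!
# Project CY (MP_9583f0_gt), statements 2: classification of the meridian networks

Every module `X` proves `theorem hX (h1 : StA) ... : StX` (the statements listed as hypotheses).  Complete proofs in the docstrings.
`ρ = rho N`, `G` = graph of `ρ` (the points `(ρ t, t)`, `0 ≤ t ≤ h`).  `Sg`: the network is not two discs.
-/

set_option autoImplicit false

open Set Topology Filter

namespace Pool.Agent.Helper31.CY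

/-- the only points of `N` at the heights `0` and `h` are the two end points -/
def Sg (N : Set (ℝ × ℝ)) (r0 r1 h : ℝ) : Prop :=
  ∀ x ∈ N, (x.2 = 0 → x = (r0, 0)) ∧ (x.2 = h → x = (r1, h))

/-- CTF (catenaries).

Proof. `c = r/√(1+m²)`, `a = arsinh m`: `cat r m τ = c cosh (τ/c + a)`, `ct r m τ = sinh (τ/c + a)`; `cosh a = √(1+m²)` (`Real.cosh_arsinh`).  Restart: for `r' = cat r m τ`, `m' = ct r m τ`: `√(1+m'²) = cosh (τ/c+a)`, `r'/√(1+m'²) = c`, `arsinh m' = τ/c + a`.  Reflection: `arsinh (-m) = -arsinh m`, `cosh` even.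
Tangent inequality: strict convexity (`ct` is strictly increasing: mean value theorem).  Separation: `cat r m' τ - cat r m τ` has derivative `m' - m > 0` at `τ = 0`. -/
def StCTF : Prop := ∀ r m : ℝ, 0 < r →
  cat r m 0 = r ∧ ct r m 0 = m ∧ (∀ τ, 0 < cat r m τ) ∧ (∀ τ, HasDerivAt (cat r m) (ct r m τ) τ) ∧
  StrictMono (ct r m) ∧ Continuous (ct r m) ∧
  (∀ τ σ, cat (cat r m τ) (ct r m τ) σ = cat r m (τ + σ)) ∧
  (∀ τ, cat r (-m) (-τ) = cat r m τ) ∧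
  (∀ τ, τ ≠ 0 → r + m * τ < cat r m τ) ∧
  (∀ m', m < m' → ∃ ε : ℝ, 0 < ε ∧ ∀ τ, 0 < τ → τ < ε →
    cat r m τ < cat r m' τ ∧ cat r m' (-τ) < cat r m (-τ))

/-- Y3 (three unit vectors with sum zero).

Proof. `v_i · v_j = -1/2`; `v_j`, `v_k` are the rotations of `v_i` by `± 120` degrees (`(x,y) ↦ (-x/2 ∓ (√3/2) y, ± (√3/2) x - y/2)`).  Not all second coordinates are `≤ 0`, not all `≥ 0` (sum zero and all zero is impossible: three numbers `± 1`).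
If one second coordinate is zero: this vector is `(-1,0)` (it is not `(1,0)`), the others are `(1/2, ± √3/2)`: last case.  Two positive, one negative: the product of the first coordinates of the two positive ones is `-1/2 - (positive) < 0`; `i` = the one with positive first coordinate,
`k` = the other one = rotation of `v_i` by `+120`: `v_k.2 = (√3/2) v_i.1 - v_i.2/2 > 0` gives `v_i.1/v_i.2 > 1/√3`; `v_k.1/v_k.2 < 0 <` slope of `i`; `v_j` = rotation by `-120`: `v_j.1/v_j.2 = (v_i.1 - √3 v_i.2)/(√3 v_i.1 + v_i.2) < v_i.1/v_i.2`.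
One positive, two negative: apply this to the reflected vectors `(x, -y)` (slopes change sign and `i`, `j` are exchanged). -/
def StY3 : Prop := ∀ v : Fin 3 → ℝ × ℝ, (∀ i, (v i).1 ^ 2 + (v i).2 ^ 2 = 1) →
  v 0 + v 1 + v 2 = 0 →
  (∃ i, 0 < (v i).2) ∧ (∃ i, (v i).2 < 0) ∧
  ((∀ i, v i ≠ (1, 0)) → ∃ i j k : Fin 3, i ≠ j ∧ j ≠ k ∧ i ≠ k ∧ 0 < (v i).2 ∧ (v j).2 < 0 ∧
    (v j).1 / (v j).2 < (v i).1 / (v i).2 ∧
    ((0 < (v k).2 ∧ (v k).1 / (v k).2 < (v i).1 / (v i).2 ∧ 1 / Real.sqrt 3 < (v i).1 / (v i).2) ∨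
     ((v k).2 < 0 ∧ (v j).1 / (v j).2 < (v k).1 / (v k).2 ∧
        (v j).1 / (v j).2 < -(1 / Real.sqrt 3)) ∨
     (v k = (-1, 0) ∧ (v i).1 / (v i).2 = 1 / Real.sqrt 3 ∧
        (v j).1 / (v j).2 = -(1 / Real.sqrt 3))))

/-- REF (reflection).

Proof. `N' = {x | (x.1, h - x.2) ∈ N}`: image of `N` under a homeomorphism; `cat r (-m) (-τ) = cat r m τ` shows that CatAt, HorAt, AxAt, YAt (`v ↦ (v.1, -v.2)`), EndAt are transported.
Hypotheses: hCTF. -/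
def StREF : Prop := ∀ (N : Set (ℝ × ℝ)) (r0 r1 h : ℝ), Net N r0 r1 h →
  Net {x : ℝ × ℝ | (x.1, h - x.2) ∈ N} r1 r0 h ∧
  ∀ q : ℝ × ℝ, YAt N q → YAt {x : ℝ × ℝ | (x.1, h - x.2) ∈ N} (q.1, h - q.2)

/-- HGT (the extreme heights of a part of the network are at its boundary).

Proof. (1) Let `t` be the maximal height of `K` (compact) and `q = (x, t) ∈ K` with `x` maximal.  Suppose `q ∉ X`; `q` is not an end point, `K = N` near `q`.  If `q.1 = 0`: AxAt: `(η, t) ∈ N` for small `η > 0`, so in `K`, contradiction to the choice of `x`.  If `q.1 > 0`: CatAt: `(cat q.1 m η, t + η) ∈ N`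
(small `η > 0`; in the box by continuity of `cat`), so in `K`: contradiction to the height.  HorAt: `(x + η, t) ∈ K`: contradiction.  YAt: by Y3 some `v i` has `(v i).2 > 0` and `(cat q.1 .. η, t + η) ∈ K`: contradiction.  (2) the same downwards.
Hypotheses: hCTF hY3. -/
def StHGT : Prop := ∀ (N : Set (ℝ × ℝ)) (r0 r1 h : ℝ), Net N r0 r1 h →
  ∀ (K X : Set (ℝ × ℝ)), IsCompact K → K.Nonempty → K ⊆ N →
  (∀ q ∈ K, q ∉ X → q ≠ (r0, 0) ∧ q ≠ (r1, h) ∧ ∃ ε : ℝ, 0 < ε ∧ ∀ x ∈ box q ε, x ∈ N → x ∈ K) →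
  (∃ q ∈ K, q ∈ X ∧ (∀ x ∈ K, x.2 ≤ q.2) ∧ ∀ x ∈ K, x.2 = q.2 → x.1 ≤ q.1) ∧
  (∃ q ∈ K, q ∈ X ∧ (∀ x ∈ K, q.2 ≤ x.2) ∧ ∀ x ∈ K, x.2 = q.2 → x.1 ≤ q.1)

/-- LVL (the network is between the two levels).

Proof. HGT with `K = N`, `X` = the two end points: the highest point `q` (rightmost at its level) is `(r0,0)` or `(r1,h)`, and `(r1,h) ∈ N` has height `h > 0`, so `q = (r1,h)`; the lowest is `(r0,0)`.  (4) at a point of height `h` CatAt and YAt give points of height `> h` (as in HGT), at height `0` points of height `< 0`.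
Hypotheses: hHGT hCTF hY3. -/
def StLVL : Prop := ∀ (N : Set (ℝ × ℝ)) (r0 r1 h : ℝ), Net N r0 r1 h →
  (∀ x ∈ N, 0 ≤ x.2 ∧ x.2 ≤ h) ∧ (∀ x ∈ N, x.2 = 0 → x.1 ≤ r0) ∧ (∀ x ∈ N, x.2 = h → x.1 ≤ r1) ∧
  (∀ x ∈ N, 0 < x.1 → (x.2 = 0 ∨ x.2 = h) → x ≠ (r0, 0) → x ≠ (r1, h) → HorAt N x) ∧
  (∀ x ∈ N, x.2 = 0 ∨ x.2 = h → ¬ YAt N x)

/-- RUN (horizontal runs).

Proof. `A = {y ∈ [0,b) : (y,t) ∈ N}` is nonempty, closed in `[0,b)`, and open in `[0,b)` (HorAt, or AxAt at `0`); `[0,b)` is preconnected, so `A = [0,b)`, and `(b,t) ∈ N` as `N` is closed. -/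
def StRUN : Prop := ∀ (N : Set (ℝ × ℝ)) (t b : ℝ), IsClosed N →
  (∀ y : ℝ, 0 ≤ y → y < b → (y, t) ∈ N → (0 < y ∧ HorAt N (y, t)) ∨ (y = 0 ∧ AxAt N t)) →
  (∃ y : ℝ, 0 ≤ y ∧ y < b ∧ (y, t) ∈ N) → ∀ y : ℝ, 0 ≤ y → y ≤ b → (y, t) ∈ N

/-- DSC (two discs).

Proof. Case `x.2 = h`, `x ≠ (r1,h)` (the other case by REF; `x ↦ (x.1, h - x.2)`).  `x.1 < r1` (LVL), RUN at the level `h` with `b = r1` (LVL (4), Net.ax): `[0,r1] × {h} ⊆ N`, and these are all points of `N` at height `h`.  They form a relatively open subset of `N`: HorAt, AxAt, and at `(r1,h)`: EndAt with direction `v`;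
`(y,h) ∈ N` for `y < r1` near `r1`, `onLeg` at the height of `q` with `v.2 ≠ 0` would give `y = cat r1 _ 0 = r1`, so `v.2 = 0` and near `(r1,h)` all points of `N` have height `h`.  So `K = {x ∈ N : x.2 < h}` is compact, contains `(r0,0)`; HGT with `X = {(r0,0)}` (local equality because `x.2 < h` is open):
`K ⊆ {x.2 = 0}`.  EndAt at `(r0,0)`, direction `v`: `v.2 ≠ 0` would give points of `N` near `(r0,0)` at heights `≠ 0`; so `v.2 = 0`, `v.1 ≠ 0`, not `v.1 > 0` (LVL (2)), so some `(y,0) ∈ N`, `y < r0`; RUN at level `0`.  (2) YAt has a leg going up and one going down (Y3), so no point at height `0` or `h` (LVL (5)).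
Hypotheses: hREF hHGT hLVL hRUN hCTF hY3. -/
def StDSC : Prop := ∀ (N : Set (ℝ × ℝ)) (r0 r1 h : ℝ), Net N r0 r1 h → ¬ Sg N r0 r1 h →
  (∀ x : ℝ × ℝ, x ∈ N ↔ (x.2 = 0 ∧ 0 ≤ x.1 ∧ x.1 ≤ r0) ∨ (x.2 = h ∧ 0 ≤ x.1 ∧ x.1 ≤ r1)) ∧
  ∀ q ∈ N, ¬ YAt N q

/-- RHO (the outermost radius).

Proof. The level set `{x | (x,t) ∈ N}` is compact.  It is nonempty for `t ∈ [0,h]`: for `t = 0, h` clear; otherwise suppose it is empty, `K = {x ∈ N : x.2 ≤ t} = {x ∈ N : x.2 < t}` is compact, contains `(r0,0)`, HGT with `X = {(r0,0)}`: `K ⊆ {x.2 ≤ 0}`, so `K = {(r0,0)}` (LVL, Sg); but EndAt at `(r0,0)` gives other points of `N` arbitrarily near,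
a contradiction.  So `(ρ t, t) ∈ N` and `ρ t` is the maximum.  `ρ t > 0`: otherwise `(0,t) ∈ N`, AxAt gives `(η,t) ∈ N`.  Upper semicontinuity: otherwise `s n → t`, `ρ (s n) ≥ ρ t + ε`, `(ρ (s n), s n) ∈ N` has a convergent subsequence with limit `(y,t) ∈ N`, `y ≥ ρ t + ε`.
Hypotheses: hHGT hLVL hCTF. -/
def StRHO : Prop := ∀ (N : Set (ℝ × ℝ)) (r0 r1 h : ℝ), Net N r0 r1 h → Sg N r0 r1 h →
  rho N 0 = r0 ∧ rho N h = r1 ∧
  (∀ t ∈ Icc 0 h, (rho N t, t) ∈ N ∧ 0 < rho N t ∧ ∀ x, (x, t) ∈ N → x ≤ rho N t) ∧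
  (∀ t ∈ Icc 0 h, ∀ ε : ℝ, 0 < ε → ∃ δ : ℝ, 0 < δ ∧ ∀ s ∈ Icc 0 h, |s - t| < δ →
    rho N s < rho N t + ε)

/-- LOA (local structure of `ρ`, regular points).

Proof. `q = (ρ t, t)`, `0 < t < h`, is not an end point, not HorAt (`(ρ t + η, t) ∈ N` contradicts the maximality).  (2) CatAt: near `t` the point `(cat (ρ t) m (s-t), s)` is in `N`, so `ρ s ≥ cat (ρ t) m (s-t)`; by the upper semicontinuity `(ρ s, s)` is in the box, so `ρ s = cat (ρ t) m (s-t)`; points of `N` in the box have `x.1 = cat .. = ρ x.2`.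
(3) `(r0,0)`: EndAt, direction `v`.  `v.2 = 0` gives other points at height `0` (contradiction to Sg), `v.2 < 0` gives points below `0` (LVL); so `v.2 > 0`, and as in (2) on the upper side.  (4) the same at `h`.  `YAt` at the ends: LVL (5).
Hypotheses: hRHO hLVL hCTF. -/
def StLOA : Prop := ∀ (N : Set (ℝ × ℝ)) (r0 r1 h : ℝ), Net N r0 r1 h → Sg N r0 r1 h →
  (∀ t ∈ Ioo 0 h, (CatAt N (rho N t, t) ∨ YAt N (rho N t, t)) ∧
    (CatAt N (rho N t, t) → ∃ m ε : ℝ, 0 < ε ∧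
      (∀ s : ℝ, |s - t| < ε → rho N s = cat (rho N t) m (s - t)) ∧
      ∀ x ∈ box (rho N t, t) ε, x ∈ N → x.1 = rho N x.2)) ∧
  (∃ m ε : ℝ, 0 < ε ∧ (∀ s ∈ Ico 0 ε, rho N s = cat r0 m s) ∧
    ∀ x ∈ box (r0, 0) ε, x ∈ N → x.1 = rho N x.2) ∧
  (∃ m ε : ℝ, 0 < ε ∧ (∀ s ∈ Ioc (h - ε) h, rho N s = cat r1 m (s - h)) ∧
    ∀ x ∈ box (r1, h) ε, x ∈ N → x.1 = rho N x.2) ∧
  ¬ YAt N (r0, 0) ∧ ¬ YAt N (r1, h)

/-- LOB (local structure of `ρ`, `Y` points).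

Proof. No `v i` is `(1,0)` (points of `N` to the right at height `t`).  Take `i, j, k` from Y3, `m2` = slope of `i`, `m1` = slope of `j`.  For `s > t` near `t`: `(cat ρ m2 (s-t), s) ∈ N`, so `ρ s ≥` this, `(ρ s, s)` is in the box by upper semicontinuity, so it is on a leg going up: `i`, or `k` (if `(v k).2 > 0`; then it has a smaller slope and `cat ρ m_k τ < cat ρ m2 τ` for
small `τ > 0`, CTF): so `ρ s = cat ρ m2 (s-t)`.  For `s < t`: the same with `j` (smallest slope, `cat ρ m_k (-τ) < cat ρ m1 (-τ)` if `k` goes down).  (a) (b) (c) (d): if `k` goes up: `(cat ρ m_k τ, t+τ) ∈ N` is not on `G` (small `τ > 0`): gives (b), (c), (d), and `m2 > 1/√3`: (a).  `k` down: the same with `m1 < -1/√3`.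
`v k = (-1,0)`: `(ρ t - η, t) ∈ N` (and `≥ 0`), slopes `± 1/√3`.
Hypotheses: hY3 hCTF hRHO. -/
def StLOB : Prop := ∀ (N : Set (ℝ × ℝ)) (r0 r1 h : ℝ), Net N r0 r1 h → Sg N r0 r1 h →
  ∀ t ∈ Ioo 0 h, YAt N (rho N t, t) → ∃ m1 m2 ε : ℝ, 0 < ε ∧ m1 < m2 ∧
    (∀ s ∈ Ioc (t - ε) t, rho N s = cat (rho N t) m1 (s - t)) ∧
    (∀ s ∈ Ico t (t + ε), rho N s = cat (rho N t) m2 (s - t)) ∧
    (1 / Real.sqrt 3 ≤ m2 ∨ ∃ x ∈ N, x.1 ≠ rho N x.2 ∧ x.2 < t) ∧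
    (m1 ≤ -(1 / Real.sqrt 3) ∨ ∃ x ∈ N, x.1 ≠ rho N x.2 ∧ t < x.2) ∧
    ((m1 = -(1 / Real.sqrt 3) ∧ m2 = 1 / Real.sqrt 3 ∧
        ∃ y : ℝ, 0 ≤ y ∧ y < rho N t ∧ (y, t) ∈ N) ∨
      ∃ x ∈ N, x.1 ≠ rho N x.2 ∧ x.2 ≠ t) ∧
    (∀ η : ℝ, 0 < η → ∃ x ∈ box (rho N t, t) η, x ∈ N ∧ x.1 ≠ rho N x.2)

/-- CVX (`ρ` is continuous and convex).

Proof. Continuity from the local formulas (LOA, LOB).  Convexity: suppose `a < b < c` in `[0,h]` and `ρ b > L b`, `L` the chord (slope `λ`) over `[a,c]`.  `φ = ρ - L` is continuous on `[a,c]`, zero at the ends, so it has its maximum at some `b' ∈ (a,c)`.  Locally `ρ s = cat (ρ b') m2 (s - b')` for `s ≥ b'` and `cat (ρ b') m1 (s-b')` for `s ≤ b'`, `m1 ≤ m2`.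
CTF (tangent inequality): for `s > b'` near: `φ s > φ b' + (m2 - λ)(s - b')`, so `m2 < λ`; for `s < b'`: `φ s > φ b' + (m1 - λ)(s-b')`, so `m1 > λ`: contradiction.  (3) For `s ∈ (t1, t2)` near `t1`: `m2 ≤ (ρ s - ρ t1)/(s - t1) ≤ (ρ t2 - ρ t1)/(t2 - t1)` (tangent inequality, convexity), and `≤ (ρ t2 - ρ s)/(t2 - s) ≤ m1` for `s` near `t2`.
Hypotheses: hCTF hRHO hLOA hLOB. -/
def StCVX : Prop := ∀ (N : Set (ℝ × ℝ)) (r0 r1 h : ℝ), Net N r0 r1 h → Sg N r0 r1 h →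
  ContinuousOn (rho N) (Icc 0 h) ∧ ConvexOn ℝ (Icc 0 h) (rho N) ∧
  ∀ t1 t2 m2 m1 ε : ℝ, 0 < t1 → t1 < t2 → t2 < h → 0 < ε →
    (∀ s ∈ Ico t1 (t1 + ε), rho N s = cat (rho N t1) m2 (s - t1)) →
    (∀ s ∈ Ioc (t2 - ε) t2, rho N s = cat (rho N t2) m1 (s - t2)) → m2 ≤ m1

/-- KK (the rest of the network).

Proof. `G` is compact (`ρ` continuous), `R = {x ∈ N : x.1 ≠ ρ x.2} = N \ G` (heights are in `[0,h]` by LVL).  If `R` is empty: no `Y` point on `G` (LOB (d); LOA (5), (6) for the ends): first alternative (every `q ∈ N` is on `G`; at height `0`, `h` it is an end point).  Otherwise `K = closure R ⊆ N` is compact, nonempty; `X = {(ρ t, t) : 0 < t < h, YAt}`.  Let `q ∈ K`, `q ∉ X`: then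
`q ∈ R` (a point of `G` which is CatAt or an end point has a box in which `N ⊆ G`, LOA, so is not in the closure of `R`), `q` is not an end point, and there is a box around `q` disjoint from `G`, where `x ∈ N` implies `x ∈ R ⊆ K`.  HGT: the highest point of `K` is `(ρ t⁺, t⁺) ∈ X`, the lowest `(ρ t⁻, t⁻) ∈ X`.
LOB (b) at `t⁺`: `m1⁺ ≤ -1/√3`; LOB (a) at `t⁻`: `m2⁻ ≥ 1/√3`.  If `t⁻ < t⁺`, CVX (3) (take the smaller `ε`): `1/√3 ≤ m2⁻ ≤ m1⁺ ≤ -1/√3`, contradiction.  So `t⁻ = t⁺ = t`, `R ⊆ {x.2 = t}`, and LOB (c): first case.  `s ≠ t`: `YAt N (ρ s, s)` would give points of `R` near `(ρ s, s)` (LOB (d)), heights `≠ t`; so CatAt (LOA).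
Hypotheses: hHGT hLVL hRHO hLOA hLOB hCVX. -/
def StKK : Prop := ∀ (N : Set (ℝ × ℝ)) (r0 r1 h : ℝ), Net N r0 r1 h → Sg N r0 r1 h →
  ((∀ x ∈ N, x.1 = rho N x.2) ∧ (∀ q ∈ N, ¬ YAt N q) ∧ ∀ s ∈ Ioo 0 h, CatAt N (rho N s, s)) ∨
  ∃ t ∈ Ioo 0 h, (∀ s ∈ Ioo 0 h, s ≠ t → CatAt N (rho N s, s)) ∧
    (∀ x ∈ N, x.1 ≠ rho N x.2 → x.2 = t) ∧
    (∃ y : ℝ, 0 ≤ y ∧ y < rho N t ∧ (y, t) ∈ N) ∧
    ∃ ε : ℝ, 0 < ε ∧ (∀ s ∈ Ioc (t - ε) t, rho N s = cat (rho N t) (-(1 / Real.sqrt 3)) (s - t)) ∧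
      (∀ s ∈ Ico t (t + ε), rho N s = cat (rho N t) (1 / Real.sqrt 3) (s - t))

/-- DK (the disc).

Proof. RUN at the level `t` with `b = ρ t`: let `0 < y < ρ t`, `q = (y,t) ∈ N`; `q` is not on `G`, not an end point (`0 < t < h`), and a box around `q` is disjoint from `G` (`ρ` continuous).  CatAt or YAt (a leg going up, Y3) would give a point of `N` in this box at a height `≠ t`, a contradiction to the hypothesis; so HorAt.  `y = 0`: Net.ax.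
Hypotheses: hRUN hCVX hRHO hCTF hY3. -/
def StDK : Prop := ∀ (N : Set (ℝ × ℝ)) (r0 r1 h : ℝ), Net N r0 r1 h → Sg N r0 r1 h →
  ∀ t ∈ Ioo 0 h, (∀ x ∈ N, x.1 ≠ rho N x.2 → x.2 = t) →
  (∃ y : ℝ, 0 ≤ y ∧ y < rho N t ∧ (y, t) ∈ N) → ∀ y : ℝ, 0 ≤ y → y ≤ rho N t → (y, t) ∈ N

/-- SEG (continuation of catenaries).

Proof. `f > 0` on `[a,b)`; let `s* = sup {s ∈ [a,b] : f = cat (f a) m (· - a) on [a,s]}`; `s* > a`, by continuity `f = cat ..` on `[a,s*]`.  If `s* < b`: near `s*`, `f s = cat (f s*) m' (s - s*)`; comparing derivatives from the left at `s*`: `m' = ct (f a) m (s* - a)`; the restart property: `f s = cat (f a) m (s - a)` on both sides of `s*`: contradiction.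
Hypotheses: hCTF. -/
def StSEG : Prop := ∀ (f : ℝ → ℝ) (a b m : ℝ), a < b → ContinuousOn f (Icc a b) → 0 < f a →
  (∃ ε : ℝ, 0 < ε ∧ ∀ s ∈ Ico a (a + ε), f s = cat (f a) m (s - a)) →
  (∀ t ∈ Ioo a b, 0 < f t ∧ ∃ m' ε : ℝ, 0 < ε ∧ ∀ s : ℝ, |s - t| < ε →
    f s = cat (f t) m' (s - t)) →
  ∀ s ∈ Icc a b, f s = cat (f a) m (s - a)

/-- CL2 (classification of the networks).

Proof. If not `Sg`: DSC.  Otherwise KK.  First alternative: SEG for `f = ρ` on `[0,h]` (start: LOA (3); CatAt at all `s ∈ (0,h)` with LOA (2)): `ρ s = cat r0 m s` on `[0,h]`, `N = G`.  Second: `ρ₀ = ρ t`.  SEG on `[t,h]` with slope `1/√3`: `ρ s = cat ρ₀ (1/√3) (s-t)`; SEG for `s ↦ ρ (t - s)` on `[0,t]` (slope `1/√3`; `cat r (-m) (-τ) = cat r m τ`):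
`ρ s = cat ρ₀ (1/√3) (t - s)` for `s ≤ t`.  `N = G ∪ {(y,t) ∈ N}`, and by DK and the maximality of `ρ t` the latter is `[0,ρ₀] × {t}`.
Hypotheses: hCTF hDSC hRHO hLVL hLOA hCVX hKK hDK hSEG. -/
def StCL2 : Prop := ∀ (N : Set (ℝ × ℝ)) (r0 r1 h : ℝ), Net N r0 r1 h →
  ((∀ x : ℝ × ℝ, x ∈ N ↔ (x.2 = 0 ∧ 0 ≤ x.1 ∧ x.1 ≤ r0) ∨ (x.2 = h ∧ 0 ≤ x.1 ∧ x.1 ≤ r1)) ∧
    ∀ q ∈ N, ¬ YAt N q) ∨
  ((∃ m : ℝ, ∀ x : ℝ × ℝ, x ∈ N ↔ 0 ≤ x.2 ∧ x.2 ≤ h ∧ x.1 = cat r0 m x.2) ∧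
    ∀ q ∈ N, ¬ YAt N q) ∨
  ∃ ρ t : ℝ, 0 < ρ ∧ 0 < t ∧ t < h ∧ ∀ x : ℝ × ℝ, x ∈ N ↔
    (0 ≤ x.2 ∧ x.2 ≤ h ∧ x.1 = cat ρ (1 / Real.sqrt 3) |x.2 - t|) ∨
      (x.2 = t ∧ 0 ≤ x.1 ∧ x.1 ≤ ρ)

end Pool.Agent.Helper31.CY
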