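import Pool.Agent.Helper31.CY.Defs

/-!
# Project CY (MP_9583f0_gt), statements 3: rotations, isolated surfaces, back to space

Every module `X` proves `theorem hX (h1 : StA) ... : StX` (the statements listed as hypotheses).  Complete proofs in the docstrings.
-/

set_option autoImplicit false

open Set Topology Filter

namespace Pool.Agent.Helper31.CY

/-- MSR (invariance of the minimal surface operator).

Proof. `R = rot θ` is linear.  On the open set `R⁻¹ U` (chain rule; `R (bv 0) = (c,s,0)`, `R (bv 1) = (-s,c,0)`, `R (bv 2) = bv 2`, `c = cos θ`, `s = sin θ`): `D 0 (f ∘ R) y = c (D 0 f)(R y) + s (D 1 f)(R y)`,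
`D 1 (f ∘ R) y = -s (D 0 f)(R y) + c (D 1 f)(R y)`, `D 2 (f ∘ R) y = (D 2 f)(R y)`.  The `D i f` are `C¹` on `U`; the same formulas once more give `D j (D i (f ∘ R)) x` in terms of `H j i = (D j (D i f))(R x)`.  Expand the sums (`Fin.sum_univ_three`); with `c² + s² = 1` the identity is polynomial:
`g' = Rᵀ g`, `H' = Rᵀ H R`, so `g'ᵀ g' = gᵀ g`, `tr H' = tr H`, `g'ᵀ H' g' = gᵀ H g`. -/
def StMSR : Prop := ∀ (f : E3 → ℝ) (U : Set E3) (θ : ℝ) (x : E3), IsOpen U → ContDiffOn ℝ 2 f U →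
  rot θ x ∈ U → mse (fun y => f (rot θ y)) x = mse f (rot θ x)

/-- RTI (transport by rotations).

Proof. First three: coordinates (`EuclideanSpace.dist_eq` or norms squared).  (4) With `R = rot (-θ)`: `x ∈ rot θ '' S ↔ R x ∈ S`; charts: `Φ ∘ R`, `f ∘ R` on `U' = {x | R x ∈ U}` (open), `fderiv (Φ ∘ R) (rot θ p) v = fderiv Φ p (R v)` (`R` linear), `R` preserves norms and is injective.  `RegP`: MSR.
(5) `rot θ '' S` is compact, `rot θ` maps each circle onto itself; a point of `rot θ '' S` outside the circles is `rot θ p` with `p ∈ S` outside the circles.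
Hypotheses: hMSR. -/
def StRTI : Prop := (∀ θ φ : ℝ, ∀ x : E3, rot θ (rot φ x) = rot (θ + φ) x) ∧
  (∀ x : E3, rot 0 x = x) ∧ (∀ θ : ℝ, ∀ x y : E3, dist (rot θ x) (rot θ y) = dist x y) ∧
  (∀ (S M : Set E3) (p : E3) (θ : ℝ), (ModelAt S M p → ModelAt (rot θ '' S) M (rot θ p)) ∧
    (RegP S p → RegP (rot θ '' S) (rot θ p)) ∧ (BdyP S p → BdyP (rot θ '' S) (rot θ p))) ∧
  ∀ (S : Set E3) (r0 r1 h θ : ℝ), MPS S (circ r0 0 ∪ circ r1 h) →
    MPS (rot θ '' S) (circ r0 0 ∪ circ r1 h)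

/-- ISO (isolated surfaces are rotationally invariant).

Proof. `S` is compact and nonempty (`pt r0 0 0 ∈ circ r0 0 ⊆ S`), `‖x‖ ≤ R` on `S`.  `‖rot θ x - x‖² = (2 - 2 cos θ)(x0² + x1²) ≤ θ² R²` (`Real.one_sub_sq_div_two_le_cos`), so `hausdorffDist S (rot θ '' S) ≤ |θ| R` (`Metric.hausdorffDist_le_of_mem_dist`).  By RTI (5) and the hypothesis
`rot θ '' S = S` whenever `|θ| R < ε`.  Arbitrary `θ`: `θ = n (θ/n)` with `|θ| R/n < ε`, and `rot (k φ) x = rot φ (rot ((k-1) φ) x)`: induction.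
Hypotheses: hRTI. -/
def StISO : Prop := ∀ (S : Set E3) (r0 r1 h ε : ℝ), 0 < r0 → MPS S (circ r0 0 ∪ circ r1 h) →
  0 < ε → (∀ S' : Set E3, MPS S' (circ r0 0 ∪ circ r1 h) → Metric.hausdorffDist S S' < ε → S' = S) →
  RotInv S

/-- CNT (if there are only countably many surfaces they are rotationally invariant).

Proof. `H = {θ | rot θ '' S = S}` is an additive subgroup of `ℝ` (RTI) and closed (if `θ n → θ`, `x ∈ S`: `rot (θ n) x → rot θ x ∈ S`, as `S` is closed; the same for `-θ n`; both inclusions give equality).  `θ ↦ rot θ '' S` maps `ℝ` to a countable set (RTI (5)); if `H` were countable then every fibre would be countable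
(`θ, θ'` in the same fibre: `θ - θ' ∈ H`), so `ℝ` would be a countable union of countable sets: contradiction.  So `H` is not countable, hence not cyclic; `AddSubgroup.dense_or_cyclic`: dense, and closed, so `H = ⊤`.
Hypotheses: hRTI. -/
def StCNT : Prop := ∀ (S : Set E3) (r0 r1 h : ℝ), MPS S (circ r0 0 ∪ circ r1 h) →
  {S' : Set E3 | MPS S' (circ r0 0 ∪ circ r1 h)}.Countable → RotInv S

/-- HOM (homeomorphism with the standard piece).

Proof. `c τ = cat ρ (1/√3) τ`, `c₀ τ = cat 1 (1/√3) τ` (positive, continuous, `c 0 = ρ`, `c₀ 0 = 1`: CTF).  `σ s = max (s-t) 0/(h-t) + min (s-t) 0/t` is a homeomorphism of `ℝ` with the inverse `u ↦ t + (h-t) max u 0 + t min u 0`; `σ t = 0`, and `0 ≤ s ≤ h ↔ |σ s| ≤ 1`.  `k s = c₀ |σ s|/c |s - t| > 0` is continuous.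
`Ψ x = pt (k (x 2) * x 0) (k (x 2) * x 1) (σ (x 2))` is a homeomorphism of `E3` (inverse: `pt (x 0/k (σ⁻¹ (x 2))) (x 1/k (σ⁻¹ (x 2))) (σ⁻¹ (x 2))`), `rad (Ψ x) = k (x 2) * rad x`.  `x ∈ S ↔ Ψ x ∈ CY0`: first kind: `rad x = c |x 2 - t| ↔ rad (Ψ x) = c₀ |σ (x 2)|`; second kind: `x 2 = t ↔ σ (x 2) = 0` and then `k t = 1/ρ`,
`rad x ≤ ρ ↔ rad (Ψ x) ≤ 1`.  `Homeomorph.subtype`.
Hypotheses: hCTF. -/
def StHOM : Prop := ∀ (S : Set E3) (r0 r1 h : ℝ), CatY S r0 r1 h → Nonempty (S ≃ₜ CY0)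

/-- CLS (classification in space).

Proof. `N = Mer S`.  NET: `Net N r0 r1 h`; CL2; MER (2): `x ∈ S ↔ (rad x, x 2) ∈ N`, `0 ≤ rad x`.  First alternative: Discs.  Second: Catn (`(r1,h) ∈ N` gives `cat r0 m h = r1`).  Third: CatY (`(r0,0) ∈ N`: `r0 = cat ρ (1/√3) |0 - t|`, as `0 ≠ t`; `(r1,h) ∈ N`: `r1 = cat ρ (1/√3) |h - t|`, as `h ≠ t`).
Singular point `p`: TYP (1): it is a `Y` point.  MER (3): `rot θ p = pt r 0 z`, `r = rad p`, `z = p 2`; `rot θ '' S = S` (RotInv, RTI), so `ModelAt S Ycone (pt r 0 z)` (RTI (4)); `r > 0` (TYP (2)); `pt r 0 z` is not on the circles (`rot θ` preserves them); NET (2): `YAt N (r,z)`, `(r,z) ∈ N`: the first two alternatives of CL2 are impossible.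
Hypotheses: hNET hCL2 hMER hTYP hRTI (as `∀`-statements of `St1`, `St2`; this module imports `St1`, `St2` too: take the hypotheses as listed). -/
def StCLS : Prop := ∀ (S : Set E3) (r0 r1 h : ℝ), 0 < r0 → 0 < r1 → 0 < h →
  MPS S (circ r0 0 ∪ circ r1 h) → RotInv S →
  (Discs S r0 r1 h ∨ Catn S r0 r1 h ∨ CatY S r0 r1 h) ∧
  (Sing S (circ r0 0 ∪ circ r1 h) → CatY S r0 r1 h)

end Pool.Agent.Helper31.CY
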