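import Pool.Agent.Helper31.CY.St3

set_option autoImplicit false

open Set Topology Filter

namespace Pool.Agent.Helper31.CY

private lemma rot_cont (x : E3) : Continuous (fun θ : ℝ => rot θ x) := by
  unfold rot pt
  refine (PiLp.continuous_toLp 2 _).comp ?_
  refine continuous_pi fun i => ?_
  fin_cases i
  · simp; fun_prop
  · simp; fun_prop
  · simp; fun_prop

theorem hCNT (hRTI : StRTI) : StCNT := by
  obtain ⟨hadd, hzero, _, _, hmps⟩ := hRTI
  intro S r0 r1 h hS hC
  have himg : ∀ θ φ : ℝ, rot (θ + φ) '' S = rot θ '' (rot φ '' S) := by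
    intro θ φ
    rw [Set.image_image]
    exact Set.image_congr fun x _ => (hadd θ φ x).symm
  have h0 : rot 0 '' S = S := by
    have : rot 0 '' S = (fun x => x) '' S := Set.image_congr fun x _ => hzero x
    rw [this, Set.image_id']
  let H : AddSubgroup ℝ :=
    { carrier := {θ | rot θ '' S = S}
      zero_mem' := h0
      add_mem' := by
        intro a b ha hb
        show rot (a + b) '' S = S
        rw [himg, show rot b '' S = S from hb, show rot a '' S = S from ha]
      neg_mem' := by
        intro a ha
        show rot (-a) '' S = S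
        have ha' : rot a '' S = S := ha
        have h1 := himg (-a) a
        rw [ha', neg_add_cancel, h0] at h1
        exact h1.symm }
  have hmem : ∀ θ : ℝ, θ ∈ H ↔ rot θ '' S = S := fun θ => Iff.rfl
  have hcl : IsClosed (H : Set ℝ) := by
    have e : (H : Set ℝ) = ⋂ x ∈ S, ({θ : ℝ | rot θ x ∈ S} ∩ {θ : ℝ | rot (-θ) x ∈ S}) := by
      ext θ
      simp only [mem_iInter, SetLike.mem_coe, mem_inter_iff, mem_setOf_eq]
      constructor
      · intro hθ x hx
        have h1 : rot θ '' S = S := hθ
        have h2 : rot (-θ) '' S = S := H.neg_mem hθ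
        exact ⟨h1 ▸ mem_image_of_mem _ hx, h2 ▸ mem_image_of_mem _ hx⟩
      · intro hθ
        show rot θ '' S = S
        apply Subset.antisymm
        · rintro _ ⟨x, hx, rfl⟩
          exact (hθ x hx).1
        · intro x hx
          refine ⟨rot (-θ) x, (hθ x hx).2, ?_⟩
          rw [hadd, add_neg_cancel, hzero]
    rw [e]
    refine isClosed_biInter fun x _ => ?_
    refine IsClosed.inter (hS.cpt.isClosed.preimage (rot_cont x)) ?_
    exact hS.cpt.isClosed.preimage ((rot_cont x).comp continuous_neg)
  have hunc : ¬ (H : Set ℝ).Countable := by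
    intro hH
    have huniv : (Set.univ : Set ℝ) ⊆
        ⋃ T ∈ {S' : Set E3 | MPS S' (circ r0 0 ∪ circ r1 h)}, {θ : ℝ | rot θ '' S = T} := by
      intro θ _
      simp only [mem_iUnion]
      exact ⟨rot θ '' S, hmps S r0 r1 h θ hS, rfl⟩
    have hcount : (⋃ T ∈ {S' : Set E3 | MPS S' (circ r0 0 ∪ circ r1 h)},
        {θ : ℝ | rot θ '' S = T}).Countable := by
      refine hC.biUnion fun T _ => ?_
      rcases Set.eq_empty_or_nonempty {θ : ℝ | rot θ '' S = T} with h1 | ⟨θ0, h1⟩
      · rw [h1]; exact Set.countable_empty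
      · refine (hH.image (fun φ => θ0 + φ)).mono ?_
        intro θ hθ
        refine ⟨-θ0 + θ, ?_, by simp⟩
        show rot (-θ0 + θ) '' S = S
        have h2 : rot θ '' S = T := hθ
        have h3 : rot θ0 '' S = T := h1
        rw [himg, h2, ← h3, ← himg, neg_add_cancel, h0]
    exact Cardinal.not_countable_real (hcount.mono huniv)
  have htop : ∀ θ : ℝ, θ ∈ H := by
    rcases AddSubgroup.dense_or_cyclic H with hd | ⟨a, ha⟩
    · intro θ
      have h1 : closure (H : Set ℝ) = Set.univ := hd.closure_eq
      rw [hcl.closure_eq] at h1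
      have : θ ∈ (H : Set ℝ) := by rw [h1]; trivial
      exact this
    · exfalso
      apply hunc
      rw [ha, ← AddSubgroup.zmultiples_eq_closure]
      have : ((AddSubgroup.zmultiples a : AddSubgroup ℝ) : Set ℝ) = Set.range (fun n : ℤ => n • a) := by
        ext x; simp [AddSubgroup.mem_zmultiples_iff]
      rw [this]
      exact Set.countable_range _
  intro θ x hx
  have h1 : rot θ '' S = S := htop θ
  rw [← h1]
  exact mem_image_of_mem _ hx

end Pool.Agent.Helper31.CY
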