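import Pool.Agent.Helper31.CY.St2
import Pool.Agent.Helper31.CY.St3

set_option autoImplicit false

open Set Topology Filter

namespace Pool.Agent.Helper31.CY

private lemma pt_cont {a b c : E3 → ℝ} (ha : Continuous a) (hb : Continuous b) (hc : Continuous c) :
    Continuous (fun x => pt (a x) (b x) (c x)) := by
  unfold pt
  refine (PiLp.continuous_toLp 2 _).comp ?_
  refine continuous_pi fun i => ?_
  fin_cases i
  · simpa using ha
  · simpa using hb
  · simpa using hc

private lemma co_cont (i : Fin 3) : Continuous (fun x : E3 => x i) := by fun_prop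

private lemma rad_scale (k : ℝ) (hk : 0 < k) (x : E3) (s : ℝ) :
    rad (pt (k * x 0) (k * x 1) s) = k * rad x := by
  unfold rad pt
  simp only [Fin.isValue, PiLp.toLp_apply, Matrix.cons_val_zero, Matrix.cons_val_one]
  rw [show (k * x 0) ^ 2 + (k * x 1) ^ 2 = k ^ 2 * (x 0 ^ 2 + x 1 ^ 2) by ring,
    Real.sqrt_mul (by positivity), Real.sqrt_sq hk.le]

theorem hHOM (hCTF : StCTF) : StHOM := by
  intro S r0 r1 h hS
  obtain ⟨ρ, t, hρ, ht, hth, _, _, hS⟩ := hS
  have hht : 0 < h - t := by linarith
  obtain ⟨c0, -, cpos, cder, -, -, -, -, -, -⟩ := hCTF ρ (1 / Real.sqrt 3) hρ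
  obtain ⟨d0, -, dpos, dder, -, -, -, -, -, -⟩ := hCTF 1 (1 / Real.sqrt 3) one_pos
  have ccont : Continuous (cat ρ (1 / Real.sqrt 3)) :=
    continuous_iff_continuousAt.mpr fun τ => (cder τ).continuousAt
  have dcont : Continuous (cat 1 (1 / Real.sqrt 3)) :=
    continuous_iff_continuousAt.mpr fun τ => (dder τ).continuousAt
  set c : ℝ → ℝ := cat ρ (1 / Real.sqrt 3) with hc
  set d : ℝ → ℝ := cat 1 (1 / Real.sqrt 3) with hd
  set σ : ℝ → ℝ := fun s => max (s - t) 0 / (h - t) + min (s - t) 0 / t with hσ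
  set τ : ℝ → ℝ := fun u => t + (h - t) * max u 0 + t * min u 0 with hτ
  have σcont : Continuous σ := by
    rw [hσ]; fun_prop
  have τcont : Continuous τ := by
    rw [hτ]; fun_prop
  have σpos : ∀ s, t ≤ s → σ s = (s - t) / (h - t) := by
    intro s hs
    simp only [hσ]
    rw [max_eq_left (by linarith), min_eq_right (by linarith)]; simp
  have σneg : ∀ s, s ≤ t → σ s = (s - t) / t := by
    intro s hs
    simp only [hσ]
    rw [max_eq_right (by linarith), min_eq_left (by linarith)]; simp
  have στ : ∀ u, σ (τ u) = u := by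
    intro u
    rcases le_total 0 u with hu | hu
    · have h1 : τ u = t + (h - t) * u := by
        simp only [hτ]; rw [max_eq_left hu, min_eq_right hu]; ring
      rw [h1, σpos _ (by nlinarith)]
      field_simp; ring
    · have h1 : τ u = t + t * u := by
        simp only [hτ]; rw [max_eq_right hu, min_eq_left hu]; ring
      rw [h1, σneg _ (by nlinarith)]
      field_simp; ring
  have τσ : ∀ s, τ (σ s) = s := by
    intro s
    rcases le_total t s with hs | hs
    · rw [σpos s hs]
      have h1 : 0 ≤ (s - t) / (h - t) := div_nonneg (by linarith) hht.le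
      simp only [hτ]; rw [max_eq_left h1, min_eq_right h1]
      field_simp; ring
    · rw [σneg s hs]
      have h1 : (s - t) / t ≤ 0 := div_nonpos_of_nonpos_of_nonneg (by linarith) ht.le
      simp only [hτ]; rw [max_eq_right h1, min_eq_left h1]
      field_simp; ring
  have σt : σ t = 0 := by rw [σpos t le_rfl]; simp
  have σ0 : ∀ s, σ s = 0 ↔ s = t := by
    intro s
    constructor
    · intro h1
      have h2 := τσ s
      rw [h1] at h2
      have h3 : τ 0 = t := by simp [hτ]
      rw [h3] at h2; exact h2.symm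
    · rintro rfl; exact σt
  have σ1 : ∀ s, (0 ≤ s ∧ s ≤ h) ↔ |σ s| ≤ 1 := by
    intro s
    rcases le_total t s with hs | hs
    · rw [σpos s hs, abs_of_nonneg (div_nonneg (by linarith) hht.le), div_le_one hht]
      constructor
      · rintro ⟨_, h2⟩; linarith
      · intro h2; constructor <;> linarith
    · rw [σneg s hs, abs_of_nonpos (div_nonpos_of_nonpos_of_nonneg (by linarith) ht.le),
        ← neg_div, div_le_one ht]
      constructor
      · rintro ⟨h2, _⟩; linarith
      · intro h2; constructor <;> linarith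
  set k : ℝ → ℝ := fun s => d |σ s| / c |s - t| with hk
  have kpos : ∀ s, 0 < k s := fun s => div_pos (dpos _) (cpos _)
  have kcont : Continuous k := by
    rw [hk]
    refine Continuous.div (dcont.comp (σcont.abs)) (ccont.comp ?_) fun s => (cpos _).ne'
    fun_prop
  have ckd : ∀ s, k s * c |s - t| = d |σ s| := fun s => div_mul_cancel₀ _ (cpos _).ne'
  let Ψ : E3 ≃ₜ E3 :=
    { toFun := fun x => pt (k (x 2) * x 0) (k (x 2) * x 1) (σ (x 2))
      invFun := fun y => pt (y 0 / k (τ (y 2))) (y 1 / k (τ (y 2))) (τ (y 2))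
      left_inv := by
        intro x
        have hkx := (kpos (x 2)).ne'
        ext i
        fin_cases i
        · simp [pt, τσ]; field_simp
        · simp [pt, τσ]; field_simp
        · simp [pt, τσ]
      right_inv := by
        intro y
        have hky := (kpos (τ (y 2))).ne'
        ext i
        fin_cases i
        · simp [pt, στ]; field_simp
        · simp [pt, στ]; field_simp
        · simp [pt, στ]
      continuous_toFun := by
        refine pt_cont ?_ ?_ ?_
        · exact (kcont.comp (co_cont 2)).mul (co_cont 0)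
        · exact (kcont.comp (co_cont 2)).mul (co_cont 1)
        · exact σcont.comp (co_cont 2)
      continuous_invFun := by
        refine pt_cont ?_ ?_ ?_
        · exact (co_cont 0).div (kcont.comp (τcont.comp (co_cont 2))) fun y => (kpos _).ne'
        · exact (co_cont 1).div (kcont.comp (τcont.comp (co_cont 2))) fun y => (kpos _).ne'
        · exact τcont.comp (co_cont 2) }
  have hΨ : ∀ x, Ψ x = pt (k (x 2) * x 0) (k (x 2) * x 1) (σ (x 2)) := fun x => rfl
  have h2 : ∀ x, (Ψ x) 2 = σ (x 2) := by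
    intro x; rw [hΨ]; simp [pt]
  have hr : ∀ x, rad (Ψ x) = k (x 2) * rad x := by
    intro x; rw [hΨ]; exact rad_scale _ (kpos _) x _
  have key : ∀ x : E3, x ∈ S ↔ Ψ x ∈ CY0 := by
    intro x
    rw [hS x]
    show _ ↔ (|(Ψ x) 2| ≤ 1 ∧ rad (Ψ x) = d |(Ψ x) 2|) ∨ ((Ψ x) 2 = 0 ∧ rad (Ψ x) ≤ 1)
    rw [h2, hr]
    have e1 : (0 ≤ x 2 ∧ x 2 ≤ h ∧ rad x = c |x 2 - t|) ↔
        (|σ (x 2)| ≤ 1 ∧ k (x 2) * rad x = d |σ (x 2)|) := by
      rw [← and_assoc, σ1, ← ckd]
      constructor
      · rintro ⟨a, b⟩; exact ⟨a, by rw [b]⟩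
      · rintro ⟨a, b⟩; exact ⟨a, mul_left_cancel₀ (kpos _).ne' b⟩
    have e2 : (x 2 = t ∧ rad x ≤ ρ) ↔ (σ (x 2) = 0 ∧ k (x 2) * rad x ≤ 1) := by
      rw [σ0]
      constructor
      · rintro ⟨a, b⟩
        refine ⟨a, ?_⟩
        have h3 := ckd (x 2)
        rw [a, σt, sub_self, abs_zero, c0, d0] at h3
        rw [a, ← h3]
        exact mul_le_mul_of_nonneg_left b (kpos _).le
      · rintro ⟨a, b⟩
        refine ⟨a, ?_⟩
        have h3 := ckd (x 2)
        rw [a, σt, sub_self, abs_zero, c0, d0] at h3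
        rw [a, ← h3] at b
        exact le_of_mul_le_mul_left b (kpos _)
    rw [e1, e2]
  exact ⟨Ψ.subtype key⟩

end Pool.Agent.Helper31.CY
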