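import Pool.Agent.Helper31.CY.Defs

/-!
# Project CY (MP_9583f0_gt), statements 4: the converse (these sets are minimal Plateau surfaces), number of the surfaces

Every module `X` proves `theorem hX (h1 : StA) ... : StX` (the statements listed as hypotheses).  Complete proofs in the docstrings.
-/

set_option autoImplicit false

open Set Topology Filter

namespace Pool.Agent.Helper31.CY

/-- XR1 (regular points of catenoids).

Proof. `u z = cat ρ m (z - z0) > 0`, `u' = ct ρ m (z - z0)`, `u'' = (1 + u'²)/u` (`c = ρ/√(1+m²)`: `u = c cosh (..)`, `u' = sinh (..)`, `u'' = cosh (..)/c`).  `U = ball p ε ∩ {0 < x0² + x1²}`, `f x = x0² + x1² - u(x2)²`: smooth, `D 0 f = 2 x0`, `D 1 f = 2 x1`, `D 2 f = -2 u u'`, so `fderiv f x ≠ 0` on `U`;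
`x ∈ S ↔ f x = 0` (`rad x ≥ 0`, `u > 0`).  Second derivatives: `D 0 (D 0 f) = D 1 (D 1 f) = 2`, `D 2 (D 2 f) = -2 (u'² + u u'') = -2 (1 + 2 u'²)`, mixed ones `0`.  With `s = x0² + x1²`: `mse f = (4 s + 4 u² u'²)(4 - 2(1 + 2u'²)) - (8 s - 8 u² u'² (1 + 2 u'²)) = 8 s - 8 s (1 + 2 u'²) + 16 u² u'²`, and `s = u²` on `S`: zero. -/
def StXR1 : Prop := ∀ (S : Set E3) (p : E3) (ρ m z0 ε : ℝ), 0 < ρ → 0 < p 0 ^ 2 + p 1 ^ 2 → 0 < ε →
  (∀ x : E3, dist x p < ε → (x ∈ S ↔ rad x = cat ρ m (x 2 - z0))) → RegP S p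

/-- XR2 (flat points).

Proof. `f x = x 2 - t`, `U = ball p ε`; `D 2 f = 1`, the other derivatives and all second derivatives vanish. -/
def StXR2 : Prop := ∀ (S : Set E3) (p : E3) (t ε : ℝ), 0 < ε →
  (∀ x : E3, dist x p < ε → (x ∈ S ↔ x 2 = t)) → RegP S p

/-- XB1 (boundary points of catenoids).

Proof. `Φ x = pt (σ (x 2 - p 2)) (rad x - cat ρ m (x 2 - z0)) (-(p 1) x 0 + p 0 x 1)` on `U = ball p ε ∩ {0 < x0² + x1²}` (smooth there).  The derivative at `p`: `v ↦ (σ v2, (p0 v0 + p1 v1)/rad p - ct .. v2, -p1 v0 + p0 v1)`: injective (`v2 = 0`, then `p0 v0 + p1 v1 = 0 = -p1 v0 + p0 v1`). -/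
def StXB1 : Prop := ∀ (S : Set E3) (p : E3) (ρ m z0 ε σ : ℝ), 0 < ρ → 0 < p 0 ^ 2 + p 1 ^ 2 →
  0 < ε → (σ = 1 ∨ σ = -1) → rad p = cat ρ m (p 2 - z0) →
  (∀ x : E3, dist x p < ε → (x ∈ S ↔ 0 ≤ σ * (x 2 - p 2) ∧ rad x = cat ρ m (x 2 - z0))) →
  BdyP S p

/-- XB2 (boundary points of flat discs).

Proof. `Φ x = pt (rad p - rad x) (x 2 - p 2) (-(p 1) x 0 + p 0 x 1)` on `U = ball p ε ∩ {0 < x0² + x1²}`; derivative at `p`: `v ↦ (-(p0 v0 + p1 v1)/rad p, v2, -p1 v0 + p0 v1)`: injective. -/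
def StXB2 : Prop := ∀ (S : Set E3) (p : E3) (ε : ℝ), 0 < p 0 ^ 2 + p 1 ^ 2 → 0 < ε →
  (∀ x : E3, dist x p < ε → (x ∈ S ↔ x 2 = p 2 ∧ rad x ≤ rad p)) → BdyP S p

/-- XY (the `Y` points of the `Y`-catenoid).

Proof. `e τ = cat ρ (1/√3) τ - ρ - τ/√3`: `e 0 = e' 0 = 0`, so `s ↦ e |s|` is `C¹` with derivative `0` at `0` (derivative `sign s * e' |s|`, or: `e |s| = max-free formula`: it is `e s` for `s ≥ 0` and `e (-s)` for `s ≤ 0`; continuous derivative by gluing).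
`Φ x = pt (-(rad x - ρ - e |x 2 - t|)) (x 2 - t) ((-(p 1) x 0 + p 0 x 1)/ρ)` on `U = ball p ε ∩ {0 < x0² + x1²}`, `Φ p = 0`, derivative at `p`: `v ↦ (-(p0 v0 + p1 v1)/ρ, v2, (-p1 v0 + p0 v1)/ρ)`, isometric as `p0² + p1² = ρ²`.
`x ∈ S ↔ (Φ x 0, Φ x 1) ∈ tri`: `rad x = cat ρ (1/√3) |x 2 - t|` iff `Φ x 0 = -|x 2 - t|/√3`, i.e. `(Φ x 0, Φ x 1)` is on one of the rays of `(-1/2, ± √3/2)` (`t' = 2 |x 2 - t|/√3`); `x 2 = t`, `rad x ≤ ρ` iff `Φ x 1 = 0 ≤ Φ x 0` (`e 0 = 0`): the ray of `(1,0)`. -/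
def StXY : Prop := ∀ (S : Set E3) (p : E3) (ρ t ε : ℝ), 0 < ρ → rad p = ρ → p 2 = t → 0 < ε →
  (∀ x : E3, dist x p < ε →
    (x ∈ S ↔ rad x = cat ρ (1 / Real.sqrt 3) |x 2 - t| ∨ (x 2 = t ∧ rad x ≤ ρ))) →
  ModelAt S Ycone p

/-- DSM (two discs are a minimal Plateau surface).

Proof. Closed (`rad` continuous) and bounded.  `p ∈ S` with height `0`: `rad p = r0` is a point of the circle: XB2 (near `p` all heights are `< h`); `rad p < r0`: XR2.  Height `h`: the same.  A point of the circles has `rad p = r0 > 0` (or `r1`) and is in `S`.  `rad (rot θ x) = rad x`, `(rot θ x) 2 = x 2`.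
Hypotheses: hXR2 hXB2. -/
def StDSM : Prop := ∀ (S : Set E3) (r0 r1 h : ℝ), 0 < r0 → 0 < r1 → 0 < h → Discs S r0 r1 h →
  MPS S (circ r0 0 ∪ circ r1 h) ∧ RotInv S

/-- CTM (a piece of a catenoid is a minimal surface).

Proof. `S = {0 ≤ x 2 ≤ h, rad x = cat r0 m (x 2)}`: closed; bounded (`cat r0 m` is bounded on `[0,h]`).  `0 < x 2 < h`: XR1 (`z0 = 0`, `rad p = cat > 0`).  `x 2 = 0`: `rad x = cat r0 m 0 = r0`: the circle, XB1 with `σ = 1`; `x 2 = h`: XB1 with `σ = -1`.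
Hypotheses: hCTF hXR1 hXB1. -/
def StCTM : Prop := ∀ (S : Set E3) (r0 r1 h : ℝ), 0 < r0 → 0 < r1 → 0 < h → Catn S r0 r1 h →
  MPS S (circ r0 0 ∪ circ r1 h) ∧ RotInv S

/-- CYM (a piece of the `Y`-catenoid is a singular minimal Plateau surface).

Proof. `c = cat ρ (1/√3)`, `c τ > ρ` for `τ > 0` (tangent inequality).  Closed, bounded.  Let `p ∈ S`.  (i) `rad p = c |p 2 - t|`, `0 < p 2 < h`: `p 2 > t`: near `p` the set is `rad x = cat ρ (1/√3) (x 2 - t)`: XR1; `p 2 < t`: `rad x = cat ρ (1/√3) (t - x 2) = cat ρ (-(1/√3)) (x 2 - t)`: XR1; `p 2 = t`: XY.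
(ii) `p 2 = t`, `rad p < ρ`: near `p`, `rad x < ρ ≤ c |x 2 - t|`, so `x ∈ S ↔ x 2 = t`: XR2; `rad p = ρ`: XY.  (iii) `p 2 = 0`: `rad p = c t = r0`; circle; near `p`: `x ∈ S ↔ 0 ≤ x 2 ∧ rad x = cat ρ (-(1/√3)) (x 2 - t)`: XB1 (`σ = 1`); `p 2 = h`: XB1 (`σ = -1`).  Singular point: `pt ρ 0 t` (XY; its height is neither `0` nor `h`).
Hypotheses: hCTF hXR1 hXR2 hXB1 hXY. -/
def StCYM : Prop := ∀ (S : Set E3) (r0 r1 h : ℝ), 0 < r0 → 0 < r1 → 0 < h → CatY S r0 r1 h →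
  MPS S (circ r0 0 ∪ circ r1 h) ∧ RotInv S ∧ Sing S (circ r0 0 ∪ circ r1 h)

/-- INF (surfaces with infinitely many rotational symmetries). -/
def StINF : Prop := ∀ (S : Set E3) (r0 r1 h : ℝ), MPS S (circ r0 0 ∪ circ r1 h) →
  {θ : ℝ | 0 ≤ θ ∧ θ < 2 * Real.pi ∧ rot θ '' S = S}.Infinite → RotInv S

/-- CQ1 (at most two catenoids).

Proof. `k = h/r0`, `a = arsinh m` (a bijection): `cat r0 m h = r0 G(a)`, `G(a) = cosh A/cosh a`, `A = A(a) = a + k cosh a`.  `G'(a) = N(a)/cosh² a`, `N(a) = sinh (k cosh a) + k sinh a cosh a sinh A` (as `sinh A cosh a - cosh A sinh a = sinh (A - a)`).  Three solutions of `G = y` would give two zeros `b1 < b2` of `N` (Rolle).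
Let `N(b) = 0`: `sinh b sinh A < 0`, so `b < 0 < A` (`b > 0` gives `A > 0`).  `N = sinh b sinh A · Q`, `Q = A - b - coth A + coth b` near `b` (`k cosh b = A - b`, `sinh (A-b)/(sinh b sinh A) = coth b - coth A`), so `N'(b) = sinh b sinh A · Q'(b)`, `Q'(b) = coth² A · A'(b) - coth² b`, `A'(b) = 1 + k sinh b`; from `Q(b) = 0`: `k sinh b = (coth A - coth b) tanh b`,
`A'(b) = coth A tanh b < 0`.  So `Q'(b) < 0`, `N'(b) > 0` at every zero `b` of `N`: then `N` has at most one zero (let `b1 < b2` be zeros; `N > 0` just after `b1`; `x = inf {x > b1 : N x ≤ 0} ≤ b2` is a zero with `N > 0` on `(b1,x)`, so `N'(x) ≤ 0`, contradiction). -/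
def StCQ1 : Prop := ∀ r0 r1 h : ℝ, 0 < r0 → 0 < h → {m : ℝ | cat r0 m h = r1}.encard ≤ 2

/-- CQ2 (at most two `Y`-catenoids).

Proof. `a = arsinh (1/√3) > 0`, `c = ρ/√(1+1/3)`, `y0 = t/c + a`, `y1 = (h-t)/c + a` (both `> a > 0`): `c cosh y0 = r0`, `c cosh y1 = r1`, `h = c (y0 + y1 - 2a)`.  Solutions with the same `c` are equal (`t ↦ c cosh (t/c + a)` is strictly increasing for `t > 0`).  Let `c, c'` be two different solutions; `cosh y' > cosh y + (y' - y) sinh y` for `y' ≠ y` (strict convexity; `y0' ≠ y0` as `c' ≠ c`), which is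
`c' y' < c' (y - coth y) + c coth y` for `y = y0`, `y1` (multiply by `c'/sinh y` and use `c' cosh y' = c cosh y`).  Sum: `h < h + s (c' - c)` with `s = (y0 - coth y0) + (y1 - coth y1) - 2a` (`h = c (y0 + y1 - 2a)`).  Three solutions `c1 < c2 < c3`: with `c = c2`: `0 < s (c1 - c2)` and `0 < s (c3 - c2)`, contradiction. -/
def StCQ2 : Prop := ∀ r0 r1 h : ℝ, {q : ℝ × ℝ | 0 < q.1 ∧ 0 < q.2 ∧ q.2 < h ∧
  cat q.1 (1 / Real.sqrt 3) q.2 = r0 ∧ cat q.1 (1 / Real.sqrt 3) (h - q.2) = r1}.encard ≤ 2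

/-- CQ3 (at most five sets).

Proof. The sets with `Discs` are equal (at most one); `Catn`: image of the set of CQ1 under `m ↦ {x | 0 ≤ x 2 ∧ x 2 ≤ h ∧ rad x = cat r0 m (x 2)}` (`Set.encard_image_le`); `CatY`: image of the set of CQ2.  `Set.encard_union_le`.
Hypotheses: hCQ1 hCQ2. -/
def StCQ3 : Prop := ∀ r0 r1 h : ℝ, 0 < r0 → 0 < h →
  {S : Set E3 | Discs S r0 r1 h ∨ Catn S r0 r1 h ∨ CatY S r0 r1 h}.encard ≤ 5

end Pool.Agent.Helper31.CY
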