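import Pool.Agent.Helper31.CY.St3
import Pool.Agent.Helper31.CY.St4

set_option autoImplicit false

open Set Topology Filter

namespace Pool.Agent.Helper31.CY

private lemma rot_cont' (x : E3) : Continuous (fun θ : ℝ => rot θ x) := by
  unfold rot pt
  refine (PiLp.continuous_toLp 2 _).comp ?_
  refine continuous_pi fun i => ?_
  fin_cases i
  · simp; fun_prop
  · simp; fun_prop
  · simp; fun_prop

theorem hINF (hRTI : StRTI) : StINF := by
  obtain ⟨hadd, hzero, _, _, _⟩ := hRTI
  intro S r0 r1 h hS hinf
  have himg : ∀ θ φ : ℝ, rot (θ + φ) '' S = rot θ '' (rot φ '' S) := by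
    intro θ φ
    rw [Set.image_image]
    exact Set.image_congr fun x _ => (hadd θ φ x).symm
  have h0 : rot 0 '' S = S := by
    have : rot 0 '' S = (fun x => x) '' S := Set.image_congr fun x _ => hzero x
    rw [this, Set.image_id']
  let H : AddSubgroup ℝ :=
    { carrier := {θ | rot θ '' S = S}
      zero_mem' := h0
      add_mem' := by
        intro a b ha hb
        show rot (a + b) '' S = S
        rw [himg, show rot b '' S = S from hb, show rot a '' S = S from ha]
      neg_mem' := by
        intro a ha
        show rot (-a) '' S = S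
        have ha' : rot a '' S = S := ha
        have h1 := himg (-a) a
        rw [ha', neg_add_cancel, h0] at h1
        exact h1.symm }
  have hcl : IsClosed (H : Set ℝ) := by
    have e : (H : Set ℝ) = ⋂ x ∈ S, ({θ : ℝ | rot θ x ∈ S} ∩ {θ : ℝ | rot (-θ) x ∈ S}) := by
      ext θ
      simp only [mem_iInter, SetLike.mem_coe, mem_inter_iff]
      constructor
      · intro hθ x hx
        have h1 : rot θ '' S = S := hθ
        have h2 : rot (-θ) '' S = S := H.neg_mem hθ
        refine ⟨?_, ?_⟩
        · show rot θ x ∈ S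
          rw [← h1]; exact mem_image_of_mem _ hx
        · show rot (-θ) x ∈ S
          rw [← h2]; exact mem_image_of_mem _ hx
      · intro hθ
        show rot θ '' S = S
        apply Subset.antisymm
        · rintro _ ⟨x, hx, rfl⟩
          exact (hθ x hx).1
        · intro x hx
          refine ⟨rot (-θ) x, (hθ x hx).2, ?_⟩
          rw [hadd, add_neg_cancel, hzero]
    rw [e]
    refine isClosed_biInter fun x _ => ?_
    refine IsClosed.inter (hS.cpt.isClosed.preimage (rot_cont' x)) ?_
    exact hS.cpt.isClosed.preimage ((rot_cont' x).comp continuous_neg)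
  have h2pi : (2 * Real.pi) ∈ H := by
    show rot (2 * Real.pi) '' S = S
    have e : ∀ x : E3, rot (2 * Real.pi) x = x := by
      intro x
      rw [← hzero x, hadd]
      simp [rot]
    have : rot (2 * Real.pi) '' S = (fun x => x) '' S := Set.image_congr fun x _ => e x
    rw [this, Set.image_id']
  have htop : ∀ θ : ℝ, θ ∈ H := by
    rcases AddSubgroup.dense_or_cyclic H with hd | ⟨a, ha⟩
    · intro θ
      have h1 : closure (H : Set ℝ) = Set.univ := hd.closure_eq
      rw [hcl.closure_eq] at h1
      have : θ ∈ (H : Set ℝ) := by rw [h1]; trivial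
      exact this
    · exfalso
      rw [← AddSubgroup.zmultiples_eq_closure] at ha
      have ha0 : a ≠ 0 := by
        rintro rfl
        rw [AddSubgroup.zmultiples_zero_eq_bot] at ha
        rw [ha, AddSubgroup.mem_bot] at h2pi
        have := Real.pi_pos
        linarith
      apply hinf
      have hsub : {θ : ℝ | 0 ≤ θ ∧ θ < 2 * Real.pi ∧ rot θ '' S = S} ⊆
          (fun n : ℤ => n • a) '' (Set.Icc (-⌈2 * Real.pi / |a|⌉) ⌈2 * Real.pi / |a|⌉) := by
        rintro θ ⟨h1, h2, h3⟩
        have h4 : θ ∈ H := h3
        rw [ha, AddSubgroup.mem_zmultiples_iff] at h4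
        obtain ⟨n, hn⟩ := h4
        refine ⟨n, ?_, hn⟩
        have h5 : |(n : ℝ)| * |a| ≤ 2 * Real.pi := by
          rw [← abs_mul]
          have : (n : ℝ) * a = θ := by rw [← hn, zsmul_eq_mul]
          rw [this, abs_of_nonneg h1]; exact h2.le
        have h6 : |(n : ℝ)| ≤ 2 * Real.pi / |a| := by
          rw [le_div_iff₀ (abs_pos.mpr ha0)]; exact h5
        have h7 : |(n : ℝ)| ≤ (⌈2 * Real.pi / |a|⌉ : ℤ) := h6.trans (Int.le_ceil _)
        have h8 : |n| ≤ ⌈2 * Real.pi / |a|⌉ := by exact_mod_cast h7
        exact abs_le.mp h8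
      exact ((Set.finite_Icc _ _).image _).subset hsub
  intro θ x hx
  have h1 : rot θ '' S = S := htop θ
  rw [← h1]
  exact mem_image_of_mem _ hx

end Pool.Agent.Helper31.CY
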