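import Pool.Agent.Helper31.CY.St3

set_option autoImplicit false

open Set Topology Filter

namespace Pool.Agent.Helper31.CY

private noncomputable def rotL (θ : ℝ) : E3 →L[ℝ] E3 :=
  LinearMap.toContinuousLinearMap
    { toFun := rot θ
      map_add' := fun x y => by
        ext i; fin_cases i <;> simp [rot, pt] <;> ring
      map_smul' := fun a x => by
        ext i; fin_cases i <;> simp [rot, pt] <;> ring }

private lemma rotL_apply (θ : ℝ) (x : E3) : rotL θ x = rot θ x := rfl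

private lemma rot_bv0 (θ : ℝ) : rotL θ (bv 0) = Real.cos θ • bv 0 + Real.sin θ • bv 1 := by
  rw [rotL_apply]; ext i; fin_cases i <;> simp [rot, pt, bv]

private lemma rot_bv1 (θ : ℝ) : rotL θ (bv 1) = (-Real.sin θ) • bv 0 + Real.cos θ • bv 1 := by
  rw [rotL_apply]; ext i; fin_cases i <;> simp [rot, pt, bv]

private lemma rot_bv2 (θ : ℝ) : rotL θ (bv 2) = bv 2 := by
  rw [rotL_apply]; ext i; fin_cases i <;> simp [rot, pt, bv]

private lemma cmp (θ : ℝ) (g : E3 → ℝ) (y : E3) (hg : DifferentiableAt ℝ g (rot θ y)) :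
    D 0 (fun y => g (rot θ y)) y = Real.cos θ * D 0 g (rot θ y) + Real.sin θ * D 1 g (rot θ y) ∧
    D 1 (fun y => g (rot θ y)) y = -Real.sin θ * D 0 g (rot θ y) + Real.cos θ * D 1 g (rot θ y) ∧
    D 2 (fun y => g (rot θ y)) y = D 2 g (rot θ y) := by
  have h : fderiv ℝ (fun y => g (rot θ y)) y = (fderiv ℝ g (rot θ y)).comp (rotL θ) := by
    have h1 : HasFDerivAt (fun y => rotL θ y) (rotL θ) y := (rotL θ).hasFDerivAt
    have h2 : HasFDerivAt g (fderiv ℝ g (rotL θ y)) (rotL θ y) := hg.hasFDerivAt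
    exact (h2.comp y h1).fderiv
  unfold D
  rw [h]
  simp only [ContinuousLinearMap.comp_apply, rot_bv0, rot_bv1, rot_bv2, map_add, map_smul,
    smul_eq_mul]
  exact ⟨trivial, trivial, trivial⟩

private lemma lin (k : Fin 3) (g g' : E3 → ℝ) (z : E3) (a b : ℝ) (hg : DifferentiableAt ℝ g z)
    (hg' : DifferentiableAt ℝ g' z) :
    D k (fun z => a * g z + b * g' z) z = a * D k g z + b * D k g' z := by
  unfold D
  have h := ((hg.hasFDerivAt.const_mul a).add (hg'.hasFDerivAt.const_mul b)).fderiv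
  have h2 : fderiv ℝ (fun z => a * g z + b * g' z) z = a • fderiv ℝ g z + b • fderiv ℝ g' z := h
  rw [h2]; simp

theorem hMSR : StMSR := by
  intro f U θ x hU hf hx
  have hfd : ∀ z ∈ U, DifferentiableAt ℝ f z := fun z hz =>
    (hf.contDiffAt (hU.mem_nhds hz)).differentiableAt (by norm_num)
  have hDd : ∀ (k : Fin 3), ∀ z ∈ U, DifferentiableAt ℝ (D k f) z := by
    intro k z hz
    have h1 : ContDiffAt ℝ 1 (fderiv ℝ f) z :=
      (hf.contDiffAt (hU.mem_nhds hz)).fderiv_right (by norm_num)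
    exact (h1.differentiableAt (by norm_num)).clm_apply (differentiableAt_const _)
  have hV : {y : E3 | rot θ y ∈ U} ∈ 𝓝 x :=
    ((rotL θ).continuous.isOpen_preimage U hU).mem_nhds hx
  set c := Real.cos θ with hc
  set s := Real.sin θ with hs
  have e0 : D 0 (fun y => f (rot θ y)) =ᶠ[𝓝 x]
      fun y => (fun z => c * D 0 f z + s * D 1 f z) (rot θ y) := by
    filter_upwards [hV] with y hy using (cmp θ f y (hfd _ hy)).1
  have e1 : D 1 (fun y => f (rot θ y)) =ᶠ[𝓝 x]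
      fun y => (fun z => -s * D 0 f z + c * D 1 f z) (rot θ y) := by
    filter_upwards [hV] with y hy using (cmp θ f y (hfd _ hy)).2.1
  have e2 : D 2 (fun y => f (rot θ y)) =ᶠ[𝓝 x] fun y => D 2 f (rot θ y) := by
    filter_upwards [hV] with y hy using (cmp θ f y (hfd _ hy)).2.2
  have DD : ∀ (k : Fin 3) (g g' : E3 → ℝ), g =ᶠ[𝓝 x] g' → D k g x = D k g' x := by
    intro k g g' h
    unfold D; rw [h.fderiv_eq]
  have d0 : DifferentiableAt ℝ (fun z => c * D 0 f z + s * D 1 f z) (rot θ x) :=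
    ((hDd 0 _ hx).const_mul c).add ((hDd 1 _ hx).const_mul s)
  have d1 : DifferentiableAt ℝ (fun z => -s * D 0 f z + c * D 1 f z) (rot θ x) :=
    ((hDd 0 _ hx).const_mul (-s)).add ((hDd 1 _ hx).const_mul c)
  obtain ⟨a0, a1, a2⟩ := cmp θ f x (hfd _ hx)
  obtain ⟨b00, b01, b02⟩ := cmp θ _ x d0
  obtain ⟨b10, b11, b12⟩ := cmp θ _ x d1
  obtain ⟨b20, b21, b22⟩ := cmp θ _ x (hDd 2 _ hx)
  simp only [← hc, ← hs] at a0 a1 b00 b01 b10 b11 b20 b21
  have L0 : ∀ k, D k (fun z => c * D 0 f z + s * D 1 f z) (rot θ x) =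
      c * D k (D 0 f) (rot θ x) + s * D k (D 1 f) (rot θ x) :=
    fun k => lin k _ _ _ _ _ (hDd 0 _ hx) (hDd 1 _ hx)
  have L1 : ∀ k, D k (fun z => -s * D 0 f z + c * D 1 f z) (rot θ x) =
      -s * D k (D 0 f) (rot θ x) + c * D k (D 1 f) (rot θ x) :=
    fun k => lin k _ _ _ _ _ (hDd 0 _ hx) (hDd 1 _ hx)
  have hcs : c ^ 2 + s ^ 2 = 1 := by rw [hc, hs]; exact Real.cos_sq_add_sin_sq θ
  unfold mse
  simp only [Fin.sum_univ_three]
  rw [DD 0 _ _ e0, DD 1 _ _ e0, DD 2 _ _ e0, DD 0 _ _ e1, DD 1 _ _ e1, DD 2 _ _ e1,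
    DD 0 _ _ e2, DD 1 _ _ e2, DD 2 _ _ e2, a0, a1, a2, b00, b01, b02, b10, b11, b12,
    b20, b21, b22]
  simp only [L0, L1]
  generalize D 0 f (rot θ x) = g0
  generalize D 1 f (rot θ x) = g1
  generalize D 2 f (rot θ x) = g2
  generalize D 0 (D 0 f) (rot θ x) = h00
  generalize D 0 (D 1 f) (rot θ x) = h01
  generalize D 0 (D 2 f) (rot θ x) = h02
  generalize D 1 (D 0 f) (rot θ x) = h10
  generalize D 1 (D 1 f) (rot θ x) = h11
  generalize D 1 (D 2 f) (rot θ x) = h12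
  generalize D 2 (D 0 f) (rot θ x) = h20
  generalize D 2 (D 1 f) (rot θ x) = h21
  generalize D 2 (D 2 f) (rot θ x) = h22
  have E : ∀ u : ℝ, u = 1 → ((u * (g0 ^ 2 + g1 ^ 2) + g2 ^ 2) * (u * (h00 + h11) + h22) -
      (u ^ 2 * (g0 * g0 * h00 + g0 * g1 * h10 + g1 * g0 * h01 + g1 * g1 * h11) +
        u * (g0 * g2 * h20 + g2 * g0 * h02 + g1 * g2 * h21 + g2 * g1 * h12) + g2 * g2 * h22) =
      (g0 ^ 2 + g1 ^ 2 + g2 ^ 2) * (h00 + h11 + h22) -
      (g0 * g0 * h00 + g0 * g1 * h10 + g0 * g2 * h20 +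
        (g1 * g0 * h01 + g1 * g1 * h11 + g1 * g2 * h21) +
        (g2 * g0 * h02 + g2 * g1 * h12 + g2 * g2 * h22))) := by
    intro u hu; subst hu; ring
  have F := E (c ^ 2 + s ^ 2) hcs
  rw [← F]
  ring

end Pool.Agent.Helper31.CY
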