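import Pool.Agent.Helper31.CY.St2

set_option autoImplicit false

open Set Topology Filter

namespace Pool.Agent.Helper31.CY

theorem hRUN : StRUN := by
  intro N t b hN hloc hex
  obtain ⟨y0, hy0, hy0b, hy0N⟩ := hex
  have hb : 0 < b := lt_of_le_of_lt hy0 hy0b
  set A : Set ℝ := {y | (max y 0, t) ∈ N} with hA
  have hAc : IsClosed A := hN.preimage (by fun_prop)
  have key : ∀ y ∈ A, y < b → y ∈ interior A := by
    intro y hy hyb
    rw [mem_interior_iff_mem_nhds, Metric.mem_nhds_iff]
    rcases le_or_gt y 0 with h0 | h0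
    · have h1 : ((0 : ℝ), t) ∈ N := by
        have : max y 0 = 0 := max_eq_right h0
        have h2 : (max y 0, t) ∈ N := hy
        rwa [this] at h2
      rcases hloc 0 le_rfl hb h1 with ⟨h, _⟩ | ⟨_, ε, hε, hax⟩
      · exact absurd h (lt_irrefl _)
      · refine ⟨ε, hε, fun y' hy' => ?_⟩
        rw [Metric.mem_ball, Real.dist_eq, abs_lt] at hy'
        show (max y' 0, t) ∈ N
        refine (hax (max y' 0, t) ⟨?_, ?_⟩ (le_max_right _ _)).mpr rfl
        · show |max y' 0 - 0| < ε
          rw [sub_zero, abs_of_nonneg (le_max_right _ _)]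
          exact max_lt (by linarith) hε
        · show |t - t| < ε
          simpa using hε
    · have h1 : (y, t) ∈ N := by
        have : max y 0 = y := max_eq_left h0.le
        have h2 : (max y 0, t) ∈ N := hy
        rwa [this] at h2
      rcases hloc y h0.le hyb h1 with ⟨_, ε, hε, hh⟩ | ⟨h, _⟩
      · refine ⟨ε, hε, fun y' hy' => ?_⟩
        rw [Metric.mem_ball, Real.dist_eq] at hy'
        show (max y' 0, t) ∈ N
        refine (hh (max y' 0, t) ⟨?_, ?_⟩).mpr rfl
        · show |max y' 0 - y| < ε
          have h3 := abs_max_sub_max_le_abs y' y 0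
          rw [max_eq_left h0.le] at h3
          linarith
        · show |t - t| < ε
          simpa using hε
      · exact absurd h h0.ne'
  have hsub : Iio b ⊆ interior A := by
    refine isPreconnected_Iio.subset_of_closure_inter_subset isOpen_interior ⟨y0, hy0b, ?_⟩ ?_
    · apply key y0 _ hy0b
      show (max y0 0, t) ∈ N
      rwa [max_eq_left hy0]
    · rintro y ⟨h1, h2⟩
      exact key y (hAc.closure_subset_iff.mpr interior_subset h1) h2
  have hle : Iic b ⊆ A := by
    rw [← closure_Iio]
    exact hAc.closure_subset_iff.mpr (hsub.trans interior_subset)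
  intro y h0 h1
  have h2 : (max y 0, t) ∈ N := hle h1
  rwa [max_eq_left h0] at h2

end Pool.Agent.Helper31.CY
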