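import Pool.Agent.Helper58.CY.M_CHT
import Pool.Agent.Helper95.CY.M_CL2
import Pool.Agent.Helper24.CY.M_CLS
import Pool.Agent.Helper31.CY.M_CNT
import Pool.Agent.Helper7.CY.M_CQ1
import Pool.Agent.Helper42.CY.M_CQ2
import Pool.Agent.Helper94.CY.M_CQ3
import Pool.Agent.Helper66.CY.M_CTF
import Pool.Agent.Helper67.CY.M_CTM
import Pool.Agent.Helper66.CY.M_CTN
import Pool.Agent.Helper94.CY.M_CVX
import Pool.Agent.Helper38.CY.M_CYM
import Pool.Agent.Helper6.CY.M_DK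
import Pool.Agent.Helper36.CY.M_DSC
import Pool.Agent.Helper99.CY.M_DSM
import Pool.Agent.Helper99.CY.M_HGT
import Pool.Agent.Helper31.CY.M_HOM
import Pool.Agent.Helper14.CY.M_HRZ
import Pool.Agent.Helper75.CY.M_IMP
import Pool.Agent.Helper18.CY.M_IMQ
import Pool.Agent.Helper31.CY.M_INF
import Pool.Agent.Helper11.CY.M_ISO
import Pool.Agent.Helper21.CY.M_KK
import Pool.Agent.Helper12.CY.M_LEG
import Pool.Agent.Helper42.CY.M_LOA
import Pool.Agent.Helper8.CY.M_LOB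
import Pool.Agent.Helper97.CY.M_LVL
import Pool.Agent.Helper7.CY.M_MDT
import Pool.Agent.Helper95.CY.M_MDY
import Pool.Agent.Helper21.CY.M_MER
import Pool.Agent.Helper31.CY.M_MSR
import Pool.Agent.Helper58.CY.M_NBR
import Pool.Agent.Helper37.CY.M_NET
import Pool.Agent.Helper40.CY.M_NRI
import Pool.Agent.Helper15.CY.M_PTH
import Pool.Agent.Helper80.CY.M_RED
import Pool.Agent.Helper9.CY.M_REF
import Pool.Agent.Helper11.CY.M_REG
import Pool.Agent.Helper58.CY.M_RHO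
import Pool.Agent.Helper66.CY.M_ROT
import Pool.Agent.Helper29.CY.M_RTI
import Pool.Agent.Helper31.CY.M_RUN
import Pool.Agent.Helper81.CY.M_SEG
import Pool.Agent.Helper54.CY.M_TC1
import Pool.Agent.Helper30.CY.M_TC2
import Pool.Agent.Helper63.CY.M_TYP
import Pool.Agent.Helper16.CY.M_XB1
import Pool.Agent.Helper22.CY.M_XB2
import Pool.Agent.Helper36.CY.M_XR1
import Pool.Agent.Helper9.CY.M_XR2
import Pool.Agent.Helper72.CY.M_XY
import Pool.Agent.Helper34.CY.M_Y3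

set_option autoImplicit false

open Set Topology Filter

namespace Pool.Agent.Helper31.CY

theorem aPTH : StPTH := Pool.Agent.Helper15.CY.hPTH

theorem aXB1 : StXB1 := Pool.Agent.Helper16.CY.hXB1

theorem aMER : StMER := Pool.Agent.Helper21.CY.hMER

theorem aXB2 : StXB2 := Pool.Agent.Helper22.CY.hXB2

theorem aTC2 : StTC2 := Pool.Agent.Helper30.CY.hTC2

theorem aMSR : StMSR := Pool.Agent.Helper31.CY.hMSR

theorem aRUN : StRUN := Pool.Agent.Helper31.CY.hRUN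

theorem aY3 : StY3 := Pool.Agent.Helper34.CY.hY3

theorem aXR1 : StXR1 := Pool.Agent.Helper36.CY.hXR1

theorem aNRI : StNRI := Pool.Agent.Helper40.CY.hNRI

theorem aCQ2 : StCQ2 := Pool.Agent.Helper42.CY.hCQ2

theorem aTC1 : StTC1 := Pool.Agent.Helper54.CY.hTC1

theorem aCTF : StCTF := Pool.Agent.Helper66.CY.hCTF

theorem aROT : StROT := Pool.Agent.Helper66.CY.hROT

theorem aCTM : StCTM := Pool.Agent.Helper67.CY.hCTM aCTF aXR1 aXB1

theorem aCQ1 : StCQ1 := Pool.Agent.Helper7.CY.hCQ1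

theorem aMDT : StMDT := Pool.Agent.Helper7.CY.hMDT

theorem aXY : StXY := Pool.Agent.Helper72.CY.hXY

theorem aIMP : StIMP := Pool.Agent.Helper75.CY.hIMP

theorem aRED : StRED := Pool.Agent.Helper80.CY.hRED

theorem aSEG : StSEG := Pool.Agent.Helper81.CY.hSEG aCTF

theorem aREF : StREF := Pool.Agent.Helper9.CY.hREF aCTF

theorem aXR2 : StXR2 := Pool.Agent.Helper9.CY.hXR2

theorem aCQ3 : StCQ3 := Pool.Agent.Helper94.CY.hCQ3 aCQ1 aCQ2

theorem aMDY : StMDY := Pool.Agent.Helper95.CY.hMDY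

theorem aDSM : StDSM := Pool.Agent.Helper99.CY.hDSM aXR2 aXB2

theorem aHGT : StHGT := Pool.Agent.Helper99.CY.hHGT aCTF aY3

theorem aLEG : StLEG := Pool.Agent.Helper12.CY.hLEG aPTH

theorem aHRZ : StHRZ := Pool.Agent.Helper14.CY.hHRZ aIMP

theorem aIMQ : StIMQ := Pool.Agent.Helper18.CY.hIMQ aIMP

theorem aRTI : StRTI := Pool.Agent.Helper29.CY.hRTI aMSR

theorem aCNT : StCNT := Pool.Agent.Helper31.CY.hCNT aRTI

theorem aHOM : StHOM := Pool.Agent.Helper31.CY.hHOM aCTF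

theorem aINF : StINF := Pool.Agent.Helper31.CY.hINF aRTI

theorem aCYM : StCYM := Pool.Agent.Helper38.CY.hCYM aCTF aXR1 aXR2 aXB1 aXY

theorem aNBR : StNBR := Pool.Agent.Helper58.CY.hNBR aTC1 aMDY

theorem aTYP : StTYP := Pool.Agent.Helper63.CY.hTYP aTC1 aTC2 aROT aMDY aMDT aNRI

theorem aCTN : StCTN := Pool.Agent.Helper66.CY.hCTN aIMQ

theorem aLVL : StLVL := Pool.Agent.Helper97.CY.hLVL aHGT aCTF aY3

theorem aISO : StISO := Pool.Agent.Helper11.CY.hISO aRTI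

theorem aREG : StREG := Pool.Agent.Helper11.CY.hREG aTYP aRED aHRZ aCTN

theorem aDSC : StDSC := Pool.Agent.Helper36.CY.hDSC aREF aHGT aLVL aRUN aCTF aY3

theorem aCHT : StCHT := Pool.Agent.Helper58.CY.hCHT aTYP aMDY

theorem aRHO : StRHO := Pool.Agent.Helper58.CY.hRHO aHGT aLVL aCTF

theorem aLOB : StLOB := Pool.Agent.Helper8.CY.hLOB aY3 aCTF aRHO

theorem aNET : StNET := Pool.Agent.Helper37.CY.hNET aMER aREG aCHT aNBR aLEG aTYP

theorem aLOA : StLOA := Pool.Agent.Helper42.CY.hLOA aRHO aLVL aCTF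

theorem aCVX : StCVX := Pool.Agent.Helper94.CY.hCVX aCTF aRHO aLOA aLOB

theorem aKK : StKK := Pool.Agent.Helper21.CY.hKK aHGT aLVL aRHO aLOA aLOB aCVX

theorem aDK : StDK := Pool.Agent.Helper6.CY.hDK aRUN aCVX aRHO aCTF aY3

theorem aCL2 : StCL2 := Pool.Agent.Helper95.CY.hCL2 aCTF aDSC aRHO aLVL aLOA aCVX aKK aDK aSEG

theorem aCLS : StCLS := Pool.Agent.Helper24.CY.hCLS aNET aCL2 aMER aTYP aRTI

/-- The dichotomy. -/
theorem dichotomy (r0 r1 h : ℝ) (h0 : 0 < r0) (h1 : 0 < r1) (hh : 0 < h) :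
    (∀ S : Set E3, Discs S r0 r1 h ∨ Catn S r0 r1 h ∨ CatY S r0 r1 h →
      MPS S (circ r0 0 ∪ circ r1 h)) ∧
    {S : Set E3 | Discs S r0 r1 h ∨ Catn S r0 r1 h ∨ CatY S r0 r1 h}.encard ≤ 5 ∧
    (∀ S : Set E3, CatY S r0 r1 h → Sing S (circ r0 0 ∪ circ r1 h) ∧ Nonempty (S ≃ₜ CY0)) ∧
    ∀ S : Set E3, MPS S (circ r0 0 ∪ circ r1 h) →
      ((Discs S r0 r1 h ∨ Catn S r0 r1 h ∨ CatY S r0 r1 h) ∧
        (Sing S (circ r0 0 ∪ circ r1 h) → CatY S r0 r1 h)) ∨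
      ({θ : ℝ | 0 ≤ θ ∧ θ < 2 * Real.pi ∧ rot θ '' S = S}.Finite ∧
        (∀ ε : ℝ, 0 < ε → ∃ S' : Set E3, MPS S' (circ r0 0 ∪ circ r1 h) ∧ S' ≠ S ∧
          Metric.hausdorffDist S S' < ε) ∧
        ¬ {S' : Set E3 | MPS S' (circ r0 0 ∪ circ r1 h)}.Countable) := by
  refine ⟨?_, aCQ3 r0 r1 h h0 hh, ?_, ?_⟩
  · rintro S (hS | hS | hS)
    · exact (aDSM S r0 r1 h h0 h1 hh hS).1
    · exact (aCTM S r0 r1 h h0 h1 hh hS).1
    · exact (aCYM S r0 r1 h h0 h1 hh hS).1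
  · intro S hS
    exact ⟨(aCYM S r0 r1 h h0 h1 hh hS).2.2, aHOM S r0 r1 h hS⟩
  · intro S hS
    by_cases hR : RotInv S
    · exact Or.inl (aCLS S r0 r1 h h0 h1 hh hS hR)
    · refine Or.inr ⟨?_, ?_, ?_⟩
      · by_contra hc
        exact hR (aINF S r0 r1 h hS hc)
      · intro ε hε
        by_contra hc
        push Not at hc
        refine hR (aISO S r0 r1 h ε h0 hS hε fun S' hS' hd => ?_)
        by_contra hne
        exact absurd hd (not_lt.mpr (hc S' hS' hne))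
      · intro hc
        exact hR (aCNT S r0 r1 h hS hc)

end Pool.Agent.Helper31.CY
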