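import Mathlib

/-!
# Project CY (MP_9583f0_gt): minimal Plateau surfaces spanning two coaxial circles, definitions

Euclidean space is `E3 = EuclideanSpace ℝ (Fin 3)`.  A minimal Plateau surface `S` with boundary `Γ` (`MPS S Γ`) is a compact set
such that every point of `S \ Γ` is regular (`RegP`: `S` is a level set of a `C²` function with nonvanishing gradient and zero mean
curvature), or a `Y` point, or a `T` point (`ModelAt`: a local `C¹` diffeomorphism with isometric differential at the point maps `S` to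
the cone `Y` or `T`), and near every point of `Γ` it is `C¹`-diffeomorphic to a half-plane.
-/

set_option autoImplicit false

open Set Topology Filter

namespace Pool.Agent.Helper31.CY

/-- Euclidean space -/
abbrev E3 : Type := EuclideanSpace ℝ (Fin 3)

/-- the point with the coordinates `a, b, c` -/
noncomputable def pt (a b c : ℝ) : E3 := !₂[a, b, c]

/-- the basis vectors -/
noncomputable def bv (i : Fin 3) : E3 := EuclideanSpace.single i 1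

/-- partial derivatives -/
noncomputable def D (i : Fin 3) (f : E3 → ℝ) (x : E3) : ℝ := fderiv ℝ f x (bv i)

/-- the minimal surface operator of the level sets of `f`: `|∇f|² Δf - ∇²f(∇f, ∇f)`
(`|∇f|³` times the mean curvature) -/
noncomputable def mse (f : E3 → ℝ) (x : E3) : ℝ :=
  (∑ i, D i f x ^ 2) * (∑ j, D j (D j f) x) - ∑ i, ∑ j, D i f x * D j f x * D j (D i f) x

/-- the planar tripod: three rays from the origin at angles of 120 degrees -/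
def tri : Set (ℝ × ℝ) :=
  {w | ∃ t : ℝ, 0 ≤ t ∧ (w = (t, 0) ∨ w = (-(t / 2), Real.sqrt 3 / 2 * t) ∨
    w = (-(t / 2), -(Real.sqrt 3 / 2 * t)))}

/-- the cone `Y`: three half-planes meeting along a line at 120 degrees -/
def Ycone : Set E3 := {v | (v 0, v 1) ∈ tri}

/-- the vertices of a regular tetrahedron centred at the origin -/
noncomputable def tv : Fin 4 → E3 := ![pt 1 1 1, pt 1 (-1) (-1), pt (-1) 1 (-1), pt (-1) (-1) 1]

/-- the sector spanned by two vectors -/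
def sector (a b : E3) : Set E3 := {v | ∃ s t : ℝ, 0 ≤ s ∧ 0 ≤ t ∧ v = s • a + t • b}

/-- the cone `T` over the edges of a regular tetrahedron centred at the origin -/
def Tcone : Set E3 := {v | ∃ i j : Fin 4, i ≠ j ∧ v ∈ sector (tv i) (tv j)}

/-- near `p`, `S` is `C¹`-diffeomorphic to the cone `M`, with an isometric differential at `p` -/
def ModelAt (S M : Set E3) (p : E3) : Prop :=
  ∃ (Φ : E3 → E3) (U : Set E3), IsOpen U ∧ p ∈ U ∧ ContDiffOn ℝ 1 Φ U ∧ Φ p = 0 ∧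
    (∀ v, ‖fderiv ℝ Φ p v‖ = ‖v‖) ∧ ∀ x ∈ U, x ∈ S ↔ Φ x ∈ M

/-- near `p`, `S` is a `C²` surface with zero mean curvature -/
def RegP (S : Set E3) (p : E3) : Prop :=
  ∃ (f : E3 → ℝ) (U : Set E3), IsOpen U ∧ p ∈ U ∧ ContDiffOn ℝ 2 f U ∧
    (∀ x ∈ U, fderiv ℝ f x ≠ 0) ∧ (∀ x ∈ U, x ∈ S ↔ f x = 0) ∧ ∀ x ∈ U, x ∈ S → mse f x = 0

/-- near `p`, `S` is `C¹`-diffeomorphic to a closed half-plane, `p` is on the boundary line -/
def BdyP (S : Set E3) (p : E3) : Prop :=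
  ∃ (Φ : E3 → E3) (U : Set E3), IsOpen U ∧ p ∈ U ∧ ContDiffOn ℝ 1 Φ U ∧ Φ p = 0 ∧
    (∀ v, v ≠ 0 → fderiv ℝ Φ p v ≠ 0) ∧ ∀ x ∈ U, x ∈ S ↔ 0 ≤ Φ x 0 ∧ Φ x 1 = 0

/-- minimal Plateau surface `S` with boundary `Γ` -/
structure MPS (S Γ : Set E3) : Prop where
  cpt : IsCompact S
  sub : Γ ⊆ S
  int : ∀ p ∈ S, p ∉ Γ → RegP S p ∨ ModelAt S Ycone p ∨ ModelAt S Tcone p
  bdy : ∀ p ∈ Γ, BdyP S p

/-- `S` has a singular point -/
def Sing (S Γ : Set E3) : Prop := ∃ p ∈ S, p ∉ Γ ∧ (ModelAt S Ycone p ∨ ModelAt S Tcone p)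

/-- the circle of radius `r` about the vertical axis at height `h` -/
def circ (r h : ℝ) : Set E3 := {x | x 0 ^ 2 + x 1 ^ 2 = r ^ 2 ∧ x 2 = h}

/-- rotation about the vertical axis -/
noncomputable def rot (θ : ℝ) (x : E3) : E3 :=
  pt (Real.cos θ * x 0 - Real.sin θ * x 1) (Real.sin θ * x 0 + Real.cos θ * x 1) (x 2)

/-- invariance under all rotations about the vertical axis -/
def RotInv (S : Set E3) : Prop := ∀ θ : ℝ, ∀ x ∈ S, rot θ x ∈ S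

/-- the catenoid: radius at height `τ` over the point of radius `r` and slope `m = dr/dz` -/
noncomputable def cat (r m τ : ℝ) : ℝ :=
  r / Real.sqrt (1 + m ^ 2) * Real.cosh (τ * Real.sqrt (1 + m ^ 2) / r + Real.arsinh m)

/-- slope of the catenoid -/
noncomputable def ct (r m τ : ℝ) : ℝ :=
  Real.sinh (τ * Real.sqrt (1 + m ^ 2) / r + Real.arsinh m)

/-- distance to the axis -/
noncomputable def rad (x : E3) : ℝ := Real.sqrt (x 0 ^ 2 + x 1 ^ 2)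

/-- two flat discs -/
def Discs (S : Set E3) (r0 r1 h : ℝ) : Prop :=
  ∀ x : E3, x ∈ S ↔ (x 2 = 0 ∧ rad x ≤ r0) ∨ (x 2 = h ∧ rad x ≤ r1)

/-- a piece of a catenoid -/
def Catn (S : Set E3) (r0 r1 h : ℝ) : Prop :=
  ∃ m : ℝ, cat r0 m h = r1 ∧ ∀ x : E3, x ∈ S ↔ 0 ≤ x 2 ∧ x 2 ≤ h ∧ rad x = cat r0 m (x 2)

/-- a slab piece of a `Y`-catenoid: a flat disc of radius `ρ` at height `t` and two pieces of catenoids
meeting it at 120 degrees -/
def CatY (S : Set E3) (r0 r1 h : ℝ) : Prop :=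
  ∃ ρ t : ℝ, 0 < ρ ∧ 0 < t ∧ t < h ∧ cat ρ (1 / Real.sqrt 3) t = r0 ∧
    cat ρ (1 / Real.sqrt 3) (h - t) = r1 ∧
    ∀ x : E3, x ∈ S ↔ (0 ≤ x 2 ∧ x 2 ≤ h ∧ rad x = cat ρ (1 / Real.sqrt 3) |x 2 - t|) ∨
      (x 2 = t ∧ rad x ≤ ρ)

/-- the standard slab piece of the `Y`-catenoid (disc of radius one, heights between `-1` and `1`) -/
def CY0 : Set E3 :=
  {x | (|x 2| ≤ 1 ∧ rad x = cat 1 (1 / Real.sqrt 3) |x 2|) ∨ (x 2 = 0 ∧ rad x ≤ 1)}

/-! ### contingent cones, the meridian section -/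

/-- the contingent cone of `S` at `p` -/
def TCn {E : Type} [NormedAddCommGroup E] [NormedSpace ℝ E] (S : Set E) (p : E) : Set E :=
  {v | ∃ (x : ℕ → E) (t : ℕ → ℝ), (∀ n, x n ∈ S) ∧ (∀ n, 0 < t n) ∧ Tendsto x atTop (𝓝 p) ∧
    Tendsto (fun n => t n • (x n - p)) atTop (𝓝 v)}

/-- generator of the rotations -/
noncomputable def Jv (x : E3) : E3 := pt (-(x 1)) (x 0) 0

/-- the meridian section -/
def Mer (S : Set E3) : Set (ℝ × ℝ) := {q | 0 ≤ q.1 ∧ pt q.1 0 q.2 ∈ S}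

/-- open box -/
def box (q : ℝ × ℝ) (ε : ℝ) : Set (ℝ × ℝ) := {x | |x.1 - q.1| < ε ∧ |x.2 - q.2| < ε}

/-- near `q`, `N` is a piece of a catenary which is not horizontal at `q` -/
def CatAt (N : Set (ℝ × ℝ)) (q : ℝ × ℝ) : Prop :=
  ∃ m ε : ℝ, 0 < ε ∧ ∀ x ∈ box q ε, x ∈ N ↔ x.1 = cat q.1 m (x.2 - q.2)

/-- near `q`, `N` is a horizontal segment -/
def HorAt (N : Set (ℝ × ℝ)) (q : ℝ × ℝ) : Prop :=
  ∃ ε : ℝ, 0 < ε ∧ ∀ x ∈ box q ε, x ∈ N ↔ x.2 = q.2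

/-- near the point of the axis of height `t`, `N` is a horizontal segment -/
def AxAt (N : Set (ℝ × ℝ)) (t : ℝ) : Prop :=
  ∃ ε : ℝ, 0 < ε ∧ ∀ x ∈ box (0, t) ε, 0 ≤ x.1 → (x ∈ N ↔ x.2 = t)

/-- `x` is on the catenary or horizontal line which starts at `q` in the direction `v` (on this side of `q`) -/
def onLeg (q v x : ℝ × ℝ) : Prop :=
  (0 < v.2 ∧ q.2 ≤ x.2 ∧ x.1 = cat q.1 (v.1 / v.2) (x.2 - q.2)) ∨
  (v.2 < 0 ∧ x.2 ≤ q.2 ∧ x.1 = cat q.1 (v.1 / v.2) (x.2 - q.2)) ∨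
  (v.2 = 0 ∧ x.2 = q.2 ∧ 0 ≤ (x.1 - q.1) * v.1)

/-- near `q`, `N` consists of three legs at 120 degrees -/
def YAt (N : Set (ℝ × ℝ)) (q : ℝ × ℝ) : Prop :=
  ∃ v : Fin 3 → ℝ × ℝ, (∀ i, (v i).1 ^ 2 + (v i).2 ^ 2 = 1) ∧ v 0 + v 1 + v 2 = 0 ∧
    ∃ ε : ℝ, 0 < ε ∧ ∀ x ∈ box q ε, x ∈ N ↔ ∃ i, onLeg q (v i) x

/-- near `q`, `N` is one leg -/
def EndAt (N : Set (ℝ × ℝ)) (q : ℝ × ℝ) : Prop :=
  ∃ v : ℝ × ℝ, v ≠ 0 ∧ ∃ ε : ℝ, 0 < ε ∧ ∀ x ∈ box q ε, x ∈ N ↔ onLeg q v x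

/-- the meridian network of a rotationally invariant minimal Plateau surface spanning the circles of radii
`r0`, `r1` at the heights `0`, `h` -/
structure Net (N : Set (ℝ × ℝ)) (r0 r1 h : ℝ) : Prop where
  h0 : 0 < h
  p0 : 0 < r0
  p1 : 0 < r1
  cpt : IsCompact N
  nn : ∀ q ∈ N, 0 ≤ q.1
  q0 : (r0, 0) ∈ N
  q1 : (r1, h) ∈ N
  e0 : EndAt N (r0, 0)
  e1 : EndAt N (r1, h)
  int : ∀ q ∈ N, q ≠ (r0, 0) → q ≠ (r1, h) → 0 < q.1 → CatAt N q ∨ HorAt N q ∨ YAt N q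
  ax : ∀ t : ℝ, ((0 : ℝ), t) ∈ N → AxAt N t

/-- first partial derivatives in the plane -/
noncomputable def D1 (F : ℝ × ℝ → ℝ) (w : ℝ × ℝ) : ℝ := fderiv ℝ F w (1, 0)

/-- second partial derivative in the plane -/
noncomputable def D2 (F : ℝ × ℝ → ℝ) (w : ℝ × ℝ) : ℝ := fderiv ℝ F w (0, 1)

/-- the minimal surface equation for the level sets of a function `F(r,z)` (surfaces of revolution) -/
def PODE (F : ℝ × ℝ → ℝ) (w : ℝ × ℝ) : Prop :=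
  w.1 * (D2 F w ^ 2 * D1 (D1 F) w + D1 F w ^ 2 * D2 (D2 F) w - 2 * D1 F w * D2 F w * D2 (D1 F) w) +
    (D1 F w ^ 2 + D2 F w ^ 2) * D1 F w = 0

/-- the finite family of directions of the model: `N` near `q` is mapped by a `C¹` diffeomorphism `g` to the rays in
the directions `d i` -/
def RayAt {k : ℕ} (N : Set (ℝ × ℝ)) (q : ℝ × ℝ) (d : Fin k → ℝ × ℝ) (g : ℝ × ℝ → ℝ × ℝ) : Prop :=
  ∃ U : Set (ℝ × ℝ), IsOpen U ∧ q ∈ U ∧ ContDiffOn ℝ 1 g U ∧ g q = 0 ∧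
    (∀ v, v ≠ 0 → fderiv ℝ g q v ≠ 0) ∧
    ∀ x ∈ U, x ∈ N ↔ ∃ (i : Fin k) (t : ℝ), 0 ≤ t ∧ g x = t • d i

/-- the three directions of the tripod -/
noncomputable def td : Fin 3 → ℝ × ℝ :=
  ![(1, 0), (-(1 / 2), Real.sqrt 3 / 2), (-(1 / 2), -(Real.sqrt 3 / 2))]

/-- `N` near `q` is `C¹`-diffeomorphic to the tripod, with isometric differential at `q` -/
def TriAt (N : Set (ℝ × ℝ)) (q : ℝ × ℝ) : Prop :=
  ∃ g : ℝ × ℝ → ℝ × ℝ, RayAt N q td g ∧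
    ∀ v, (fderiv ℝ g q v).1 ^ 2 + (fderiv ℝ g q v).2 ^ 2 = v.1 ^ 2 + v.2 ^ 2

/-- the outermost radius at height `t` -/
noncomputable def rho (N : Set (ℝ × ℝ)) (t : ℝ) : ℝ := sSup {x : ℝ | (x, t) ∈ N}

end Pool.Agent.Helper31.CY
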