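import Pool.Agent.Helper31.CY.Defs

/-!
# Project CY (MP_9583f0_gt), statements 1: contingent cones, reduction to the meridian

Every module `X` proves `theorem hX (h1 : StA) ... : StX` (the statements listed as hypotheses).  Complete proofs in the docstrings.
-/

set_option autoImplicit false

open Set Topology Filter

namespace Pool.Agent.Helper31.CY

/-- TC1 (contingent cones and charts).

Proof. If `M` is empty both sides are false (`x n ∈ S` is in `U` for large `n`).  (→) `x n → p`, `t n (x n - p) → v`: `t n • Φ (x n) = t n • (Φ (x n) - Φ p) → A v`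
(differentiability), and `t n • Φ (x n) ∈ M` for large `n`; `M` is closed.  (←) `y n = (1/(n+1)) • A v ∈ M`, `g` the local inverse of `Φ`
(`HasStrictFDerivAt.localInverse`, `HasStrictFDerivAt.to_localInverse`, `eventually_right_inverse`): `g (y n) → p`, `Φ (g (y n)) = y n`, so `g (y n) ∈ S` for `n ≥ n₀`, and
`(n+1) • (g (y n) - p) → A.symm (A v) = v`.  Use `x n = g (y (n+n₀))`. -/
def StTC1 : Prop := ∀ (E F : Type) [NormedAddCommGroup E] [NormedSpace ℝ E] [CompleteSpace E]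
  [NormedAddCommGroup F] [NormedSpace ℝ F] [CompleteSpace F] (S : Set E) (p : E) (Φ : E → F)
  (A : E ≃L[ℝ] F) (M : Set F) (U : Set E),
  HasStrictFDerivAt Φ (A : E →L[ℝ] F) p → Φ p = 0 → U ∈ 𝓝 p → (∀ x ∈ U, x ∈ S ↔ Φ x ∈ M) →
  IsClosed M → (∀ l : ℝ, 0 ≤ l → ∀ y ∈ M, l • y ∈ M) → ∀ v, v ∈ TCn S p ↔ A v ∈ M

/-- TC2 (contingent cone of a level set).

Proof. (→) `0 = t n (f (x n) - f p) → f' v`.  (←) Let `f' v = 0`, and `w` with `f' w = 1`.  For `k ≥ 1` and `n` large (depending on `k`):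
`f (p + v/n ± w/(kn)) = ± 1/(kn) + o(1/n)` has the sign `±`, so by the intermediate value theorem there is `s`, `|s| ≤ 1/(kn)`, with `f (p + v/n + s w) = 0`; choose `n = n_k ≥ k`
(and so large that the segment is in `U`), `x k = p + v/n_k + s_k w ∈ S`, `t k = n_k`: `t k (x k - p) = v + n_k s_k w → v`.  (Or: implicit function theorem.) -/
def StTC2 : Prop := ∀ (S : Set E3) (p : E3) (f : E3 → ℝ) (U : Set E3), IsOpen U → p ∈ U →
  ContDiffOn ℝ 1 f U → fderiv ℝ f p ≠ 0 → f p = 0 → (∀ x ∈ U, x ∈ S ↔ f x = 0) →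
  ∀ v, v ∈ TCn S p ↔ fderiv ℝ f p v = 0

/-- ROT (contingent cones of rotationally invariant sets).

Proof. (1) Let `x n → p`, `t n (x n - p) → v`.  If `v = 0` replace the sequences by `x n = p`, `t n = n + 1`; if `v ≠ 0` then `t n → ∞`.  So `t n → ∞`.  Put
`y n = rot (s / t n) (x n) ∈ S`; `t n (y n - p) = t n (x n - p) + t n (rot (s/t n) (x n) - x n)`, and `(rot θ x - x)/θ → Jv p` for `θ → 0`, `x → p` (the first two coordinates are
`(cos θ - 1) x0 - sin θ x1` and `sin θ x0 + (cos θ - 1) x1`).  If `s = 0` trivial.  (2) `rot θ` is linear and continuous, `rot θ p = p`. -/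
def StROT : Prop := ∀ (S : Set E3), RotInv S → ∀ p ∈ S,
  (∀ v ∈ TCn S p, ∀ s : ℝ, v + s • Jv p ∈ TCn S p) ∧
  (p 0 = 0 → p 1 = 0 → ∀ v ∈ TCn S p, ∀ θ : ℝ, rot θ v ∈ TCn S p)

/-- MDY (the cone `Y`).

Proof. `tri` is a union of three closed rays.  (3) `u = 0`: `w ∈ Y` and `-w ∈ Y`: `(w0,w1) = t d`, `-(w0,w1) = t' d'` with directions `d, d'` of the tripod, `t d + t' d' = 0` only for `t = t' = 0`.
(4) `a = (1,0,0)`, `b = (-1/2, √3/2, 0)`. -/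
def StMDY : Prop := IsClosed Ycone ∧ (∀ l : ℝ, 0 ≤ l → ∀ y ∈ Ycone, l • y ∈ Ycone) ∧
  (∀ w : E3, (∀ u ∈ Ycone, ∀ s : ℝ, u + s • w ∈ Ycone) → w 0 = 0 ∧ w 1 = 0) ∧
  IsClosed tri ∧ (∀ l : ℝ, 0 ≤ l → ∀ y ∈ tri, l • y ∈ tri) ∧ ((1 : ℝ), (0 : ℝ)) ∈ tri ∧
  ((-1 : ℝ), (0 : ℝ)) ∉ tri ∧ (∀ w : ℝ × ℝ, w ∈ tri ↔ ∃ (i : Fin 3) (t : ℝ), 0 ≤ t ∧ w = t • td i)

/-- MDT (the cone `T`).

Proof. `T` is the set of `∑ c_i v_i` (`v_i = tv i`) with `c_i ≥ 0` of which at least two vanish; `∑ v_i = 0` is the only relation.  Closed: finite union of closed sectors (images of the closed quadrant under injective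
linear maps).  (3) Let `u + s w ∈ T` for all `u ∈ T`, all `s`.  `u = 0`: `w, -w ∈ T`: `w = a v_i + b v_j`, `-w = c v_k + d v_l`, `i ≠ j`, `k ≠ l`, all `≥ 0`, so `a v_i + b v_j + c v_k + d v_l = 0`: all coefficients (collected) are equal; if `{i,j}`
and `{k,l}` are not disjoint some coefficient vanishes so all do, `w = 0`; if disjoint `a = b = c = d`, `w = a (v_i + v_j)`.  If `a > 0` take `u = v_i`, `s = -1/(2a)`: `u + s w = (v_i - v_j)/2`, coefficients `(1/2, -1/2, 0, 0) + (c,c,c,c)`,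
nonnegative only for `c ≥ 1/2` and then at most one vanishes: not in `T`, contradiction. -/
def StMDT : Prop := IsClosed Tcone ∧ (∀ l : ℝ, 0 ≤ l → ∀ y ∈ Tcone, l • y ∈ Tcone) ∧
  (∀ w : E3, (∀ u ∈ Tcone, ∀ s : ℝ, u + s • w ∈ Tcone) → w = 0)

/-- NRI (the cones `Y`, `T` are not rotationally invariant).

Proof. In both cases `K` is a union of at most six sectors `sector a_j b_j` with `a_j, b_j` linearly independent (`A⁻¹` of the sectors of `T`; for `Y`: of the sectors spanned by `td i` (as vectors `(·,·,0)`) and `± e₃`), each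
is in a plane `P_j` through `0`, and `K` is not contained in a plane.  Let `v ∈ K`, `(v0, v1) ≠ 0`.  The points `rot θ v`, `θ = 0, 1/10, ..., 12/10`, are 13 different points of `K`, so three of them are in one plane
`P_j = {n · x = 0}`; if `v2 ≠ 0` three different points of the circle at height `v2` are linearly independent (their differences span `{x2 = 0}`), contradiction.  So `v2 = 0` for all `v ∈ K` with `(v0,v1) ≠ 0`.  Let `sector a b ⊆ K`.  If `a2 ≠ 0` then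
`a0 = a1 = 0`; then `b` is not a multiple of `e₃`, so `b2 = 0`, `b ≠ 0`, and `a + b` contradicts.  So `a2 = b2 = 0` for all sectors: `K ⊆ {x2 = 0}`, contradiction (`A` is bijective and `Y`, `T` contain three linearly
independent vectors).  (Alternatively: a polynomial `∏ (n_j · rot θ v)` in `cos θ, sin θ` vanishes.) -/
def StNRI : Prop := ∀ (K : Set E3) (A : E3 ≃L[ℝ] E3), (∀ v ∈ K, ∀ θ : ℝ, rot θ v ∈ K) →
  ¬ (∀ v, v ∈ K ↔ A v ∈ Ycone) ∧ ¬ (∀ v, v ∈ K ↔ A v ∈ Tcone)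

/-- TYP (types of points of a rotationally invariant surface).

Proof. An isometric linear map `fderiv ℝ Φ p` (or an injective one) of `E3` is a continuous linear equivalence `A`; `ContDiffOn ℝ 1` gives `HasStrictFDerivAt`.  TC1: `TCn S p = A⁻¹ M`.
(1) `T`: if `p` is off the axis, `Jv p ≠ 0`; ROT: `A⁻¹ T` is invariant under `v ↦ v + s Jv p`, so `T` under `u ↦ u + s A (Jv p)`; MDT (3).  If `p` is on the axis: ROT (2) and NRI for `K = TCn S p`.  (2) NRI.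
(3) ROT, MDY (3).  (4) TC1 with the closed cone `{v | 0 ≤ v 0, v 1 = 0}`: `u = 0`: `± A (Jv p)` in it, so both coordinates vanish.
(5) TC2: `TCn S p = ker f'`, invariant under `rot θ` by ROT (2); `f' ≠ 0`.  If `(D 0 f p, D 1 f p) ≠ 0`: `v = (-D1 f, D0 f, 0)` is in the kernel, so is `rot (π/2) v = (-D0 f, -D1 f, 0)`, and `f' = -(D0 f)² - (D1 f)² ≠ 0`.  (`fderiv f p v = ∑ v_i D i f p`.)
Hypotheses: hTC1 hTC2 hROT hMDY hMDT hNRI. -/
def StTYP : Prop := ∀ (S : Set E3), RotInv S → ∀ p ∈ S,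
  ¬ ModelAt S Tcone p ∧
  (p 0 = 0 → p 1 = 0 → ¬ ModelAt S Ycone p) ∧
  (∀ (Φ : E3 → E3) (U : Set E3), IsOpen U → p ∈ U → ContDiffOn ℝ 1 Φ U → Φ p = 0 →
    (∀ v, ‖fderiv ℝ Φ p v‖ = ‖v‖) → (∀ x ∈ U, x ∈ S ↔ Φ x ∈ Ycone) →
    (fderiv ℝ Φ p (Jv p)) 0 = 0 ∧ (fderiv ℝ Φ p (Jv p)) 1 = 0) ∧
  (∀ (Φ : E3 → E3) (U : Set E3), IsOpen U → p ∈ U → ContDiffOn ℝ 1 Φ U → Φ p = 0 →
    (∀ v, v ≠ 0 → fderiv ℝ Φ p v ≠ 0) → (∀ x ∈ U, x ∈ S ↔ 0 ≤ Φ x 0 ∧ Φ x 1 = 0) →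
    (fderiv ℝ Φ p (Jv p)) 0 = 0 ∧ (fderiv ℝ Φ p (Jv p)) 1 = 0) ∧
  (∀ (f : E3 → ℝ) (U : Set E3), IsOpen U → p ∈ U → ContDiffOn ℝ 1 f U → fderiv ℝ f p ≠ 0 →
    (∀ x ∈ U, x ∈ S ↔ f x = 0) → p 0 = 0 → p 1 = 0 → D 0 f p = 0 ∧ D 1 f p = 0)

/-- MER (the meridian section).

Proof. (2) `x = rot θ (pt (rad x) 0 (x 2))` for a suitable `θ` (polar coordinates), and back with `-θ`.  (1) closed (preimage under a continuous map, intersected with a half-plane) and bounded. -/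
def StMER : Prop := ∀ (S : Set E3), RotInv S →
  (IsCompact S → IsCompact (Mer S)) ∧ (∀ x : E3, x ∈ S ↔ (rad x, x 2) ∈ Mer S) ∧
  (∀ x : E3, ∃ θ : ℝ, rot θ x = pt (rad x) 0 (x 2))

/-- RED (the minimal surface equation in the meridian).

Proof. `w ↦ pt w.1 0 w.2` is affine and continuous, so `F` is `C²`, `D1 F w = D 0 f x`, `D2 F w = D 2 f x` on the open set `V` (`x = pt w.1 0 w.2`, chain rule) and, as this holds on an open set, `D1 (D1 F) w = D 0 (D 0 f) x`,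
`D2 (D1 F) w = D 2 (D 0 f) x`, `D2 (D2 F) w = D 2 (D 2 f) x`.  Let `x ∈ S ∩ U`, `w.1 > 0`.  `φ θ = f (rot θ x)` vanishes for small `θ` (`rot θ x ∈ S ∩ U`), so `φ'(0) = w.1 D 1 f x = 0` and (second derivative)
`φ''(0) = w.1² D 1 (D 1 f) x - w.1 D 0 f x = 0`.  With `D 1 f x = 0` and symmetry of second derivatives (`D 2 (D 0 f) = D 0 (D 2 f)`): `mse f x = F_z² F_rr + F_r² F_zz - 2 F_r F_z F_rz + (F_r² + F_z²) D 1 (D 1 f) x`; multiply by `w.1`.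
Nonvanishing: `fderiv f x ≠ 0`, `fderiv f x v = ∑ v_i D i f x`. -/
def StRED : Prop := ∀ (S : Set E3), RotInv S → ∀ (f : E3 → ℝ) (U : Set E3), IsOpen U →
  ContDiffOn ℝ 2 f U → (∀ x ∈ U, fderiv ℝ f x ≠ 0) → (∀ x ∈ U, x ∈ S ↔ f x = 0) →
  (∀ x ∈ U, x ∈ S → mse f x = 0) →
  ∀ (F : ℝ × ℝ → ℝ), F = (fun w => f (pt w.1 0 w.2)) →
  IsOpen {w : ℝ × ℝ | pt w.1 0 w.2 ∈ U} ∧ ContDiffOn ℝ 2 F {w : ℝ × ℝ | pt w.1 0 w.2 ∈ U} ∧
  (∀ w : ℝ × ℝ, pt w.1 0 w.2 ∈ U → D1 F w = D 0 f (pt w.1 0 w.2) ∧ D2 F w = D 2 f (pt w.1 0 w.2)) ∧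
  ∀ w : ℝ × ℝ, 0 < w.1 → pt w.1 0 w.2 ∈ U → pt w.1 0 w.2 ∈ S →
    PODE F w ∧ (D1 F w ≠ 0 ∨ D2 F w ≠ 0)

/-- IMP (implicit function theorem with second derivatives, graph over the first coordinate).

Proof. `Ψ w = (w.1, F w)` is `C²` near `q` with invertible derivative; local inverse `Ψ⁻¹` (`ContDiffAt.toOpenPartialHomeomorph` or `HasStrictFDerivAt`), `W s` = second coordinate of `Ψ⁻¹ (s, 0)`; on a small rectangle around `q`, `F = 0` iff `x.2 = W x.1`, and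
`D2 F ≠ 0` there; choose `ε` at most half of the height and width.  `W` is differentiable, `W' = -D1 F/D2 F` at `(s, W s)` (differentiate `F (s, W s) = 0`), which is differentiable in `s` as `D1 F`, `D2 F` are `C¹`;
`W''` its derivative; differentiate `D1 F (s, W s) + D2 F (s, W s) W' s = 0` once more and use `D1 (D2 F) = D2 (D1 F)` (symmetry, `C²`). -/
def StIMP : Prop := ∀ (F : ℝ × ℝ → ℝ) (V : Set (ℝ × ℝ)) (q : ℝ × ℝ), IsOpen V → q ∈ V →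
  ContDiffOn ℝ 2 F V → F q = 0 → D2 F q ≠ 0 →
  ∃ (W W' W'' : ℝ → ℝ) (ε : ℝ), 0 < ε ∧ W q.1 = q.2 ∧
    (∀ x ∈ box q ε, x ∈ V ∧ (F x = 0 ↔ x.2 = W x.1)) ∧
    ∀ s : ℝ, |s - q.1| < ε → (s, W s) ∈ V ∧ F (s, W s) = 0 ∧ HasDerivAt W (W' s) s ∧
      HasDerivAt W' (W'' s) s ∧ D2 F (s, W s) ≠ 0 ∧
      D1 F (s, W s) + D2 F (s, W s) * W' s = 0 ∧
      D1 (D1 F) (s, W s) + 2 * D2 (D1 F) (s, W s) * W' s + D2 (D2 F) (s, W s) * W' s ^ 2 +
        D2 F (s, W s) * W'' s = 0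

/-- IMQ (the same, graph over the second coordinate).

Proof. IMP for `F ∘ swap` (`swap` is linear: `D1 (F ∘ swap) w = D2 F (swap w)` etc. on the open set `swap⁻¹ V`; the mixed derivative becomes `D1 (D2 F) = D2 (D1 F)` by symmetry of second derivatives).
Hypotheses: hIMP. -/
def StIMQ : Prop := ∀ (F : ℝ × ℝ → ℝ) (V : Set (ℝ × ℝ)) (q : ℝ × ℝ), IsOpen V → q ∈ V →
  ContDiffOn ℝ 2 F V → F q = 0 → D1 F q ≠ 0 →
  ∃ (W W' W'' : ℝ → ℝ) (ε : ℝ), 0 < ε ∧ W q.2 = q.1 ∧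
    (∀ x ∈ box q ε, x ∈ V ∧ (F x = 0 ↔ x.1 = W x.2)) ∧
    ∀ s : ℝ, |s - q.2| < ε → (W s, s) ∈ V ∧ F (W s, s) = 0 ∧ HasDerivAt W (W' s) s ∧
      HasDerivAt W' (W'' s) s ∧ D1 F (W s, s) ≠ 0 ∧
      D2 F (W s, s) + D1 F (W s, s) * W' s = 0 ∧
      D2 (D2 F) (W s, s) + 2 * D2 (D1 F) (W s, s) * W' s + D1 (D1 F) (W s, s) * W' s ^ 2 +
        D1 F (W s, s) * W'' s = 0

/-- HRZ (horizontal points).

Proof. IMP: `W`, `W'(q.1) = 0`.  For `s > 0`, `|s - q.1| < ε`: PODE at `(s, W s)` with `D1 F = -b W'`, `b = D2 F ≠ 0`, divided by `b²`: `s (F_rr + 2 F_rz W' + F_zz W'²) - b W' (1 + W'²) = 0`, i.e. `s W'' + W' (1 + W'²) = 0`.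
So `φ s = s W' s/√(1 + W'²)` has derivative zero for `s > 0`, `|s-q.1| < ε` (an interval), and `φ(q.1) = 0` (if `q.1 > 0`), or `φ → 0` for `s → 0+` (if `q.1 = 0`, `W'` is continuous at `0`): `φ = 0`, `W' = 0`, `W s = q.2` for `s ≥ 0`, `|s-q.1|<ε`.
Hypotheses: hIMP. -/
def StHRZ : Prop := ∀ (F : ℝ × ℝ → ℝ) (V : Set (ℝ × ℝ)) (q : ℝ × ℝ), IsOpen V → q ∈ V →
  ContDiffOn ℝ 2 F V → F q = 0 → D1 F q = 0 → D2 F q ≠ 0 → 0 ≤ q.1 →
  (∀ w ∈ V, 0 < w.1 → F w = 0 → PODE F w) →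
  ∃ ε : ℝ, 0 < ε ∧ ∀ x ∈ box q ε, 0 ≤ x.1 → (x ∈ V ∧ (F x = 0 ↔ x.2 = q.2))

/-- CTN (catenary points).

Proof. IMQ: `u = W`, choose `ε < q.1` and such that `u > 0`.  PODE at `(u, s)` with `D2 F = -a u'`, `a = D1 F ≠ 0`, divided by `a²`: `u (F_zz + 2 F_rz u' + F_rr u'²) + a (1 + u'²) = 0`, i.e. `u u'' = 1 + u'²`.
So `c = u/√(1 + u'²)` has derivative zero, `(arsinh u')' = u''/√(1+u'²) = √(1+u'²)/u = 1/c`; hence with `m = u'(q.2)`: `c = q.1/√(1+m²)`, `arsinh (u' s) = (s - q.2)/c + arsinh m`, `u s = c √(1 + u'²) = c cosh (arsinh (u' s)) = cat q.1 m (s - q.2)`.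
Hypotheses: hIMQ. -/
def StCTN : Prop := ∀ (F : ℝ × ℝ → ℝ) (V : Set (ℝ × ℝ)) (q : ℝ × ℝ), IsOpen V → q ∈ V →
  ContDiffOn ℝ 2 F V → F q = 0 → D1 F q ≠ 0 → 0 < q.1 →
  (∀ w ∈ V, 0 < w.1 → F w = 0 → PODE F w) →
  ∃ m ε : ℝ, 0 < ε ∧ ∀ x ∈ box q ε, x ∈ V ∧ (F x = 0 ↔ x.1 = cat q.1 m (x.2 - q.2))

/-- REG (regular points).

Proof. RED gives `F` on `V = {w | pt w.1 0 w.2 ∈ U}`; for `w ∈ V` with `w.1 ≥ 0`: `w ∈ Mer S ↔ F w = 0`.  (1) `q = (p 0, p 2)`: if `D1 F q ≠ 0` then CTN, otherwise `D2 F q ≠ 0` and HRZ (take `ε` smaller than `p 0`, so that `x.1 > 0` in the box).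
(2) on the axis: TYP (5) gives `D 0 f p = 0` (so `D1 F (0, p 2) = 0`), `D 1 f p = 0`, so `D 2 f p ≠ 0` (as `fderiv f p ≠ 0`), HRZ.
Hypotheses: hTYP hRED hHRZ hCTN. -/
def StREG : Prop := ∀ (S : Set E3), RotInv S → ∀ r z : ℝ, pt r 0 z ∈ S → RegP S (pt r 0 z) →
  (0 < r → CatAt (Mer S) (r, z) ∨ HorAt (Mer S) (r, z)) ∧ (r = 0 → AxAt (Mer S) z)

/-- CHT (charts in the meridian).

Proof. `g w = (Φ (pt w.1 0 w.2) 0, Φ (pt w.1 0 w.2) 1)`, `A = fderiv Φ p`, `p = pt r 0 z`, `Jv p = (0, r, 0)`.  TYP (3), (4): `A (Jv p) = (0, 0, *)`, `* ≠ 0`.  `fderiv g (r,z) (a,b) = ` first two coordinates of `A (a, 0, b)`.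
Injective: if they vanish then `A (a,0,b)` is a multiple of `A (Jv p)`, so `(a,0,b)` is one of `(0,r,0)`, `a = b = 0`.  `Y`: `A` preserves inner products (polarisation), `(a,0,b) ⟂ Jv p`, so `A (a,0,b) ⟂ (0,0,*)`: third coordinate `0`, and
`‖A (a,0,b)‖² = a² + b²`.  Membership: `x ∈ Ycone ↔ (x 0, x 1) ∈ tri` (MDY, last claim, for the rays); the half-plane is the ray of `(1,0)`.  For `w.1 > 0`: `w ∈ Mer S ↔ pt w.1 0 w.2 ∈ S`: shrink `U` to `w.1 > 0`.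
Hypotheses: hTYP hMDY. -/
def StCHT : Prop := ∀ (S : Set E3), RotInv S → ∀ r z : ℝ, 0 < r → pt r 0 z ∈ S →
  (ModelAt S Ycone (pt r 0 z) → TriAt (Mer S) (r, z)) ∧
  (BdyP S (pt r 0 z) → ∃ g : ℝ × ℝ → ℝ × ℝ,
    RayAt (Mer S) (r, z) (![((1 : ℝ), (0 : ℝ))] : Fin 1 → ℝ × ℝ) g)

/-- NBR (points near a ray point are not tripod points).

Proof. `fderiv g` is continuous, so injective near `q`; `g` is injective near `q` (inverse function theorem).  Let `x ∈ N`, `x ≠ q` near `q`: `g x = t d_i`, `t > 0` (as `g x ≠ 0`).  The other rays and the opposite ray of `d_i` are closed and do not contain `t d_i`, so near `x`: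
`y ∈ N ↔ g y ∈ ℝ d_i ↔ g y - g x ∈ ℝ d_i`.  TC1 with `Φ y = g y - g x` and the closed cone `M = ℝ d_i`: `TCn N x = A⁻¹ (ℝ d_i)` is invariant under `v ↦ -v`.  If `TriAt N x` with chart `g'`, `B = fderiv g' x`: TC1 with `M = tri`: `TCn N x = B⁻¹ tri`, contains `B⁻¹ (1,0)` but not
`-B⁻¹ (1,0)` (MDY).
Hypotheses: hTC1 hMDY. -/
def StNBR : Prop := ∀ (N : Set (ℝ × ℝ)) (q : ℝ × ℝ) (k : ℕ) (d : Fin k → ℝ × ℝ)
  (g : ℝ × ℝ → ℝ × ℝ), RayAt N q d g → (∀ i, d i ≠ 0) →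
  (∀ i j, i ≠ j → ∀ s t : ℝ, 0 < s → 0 ≤ t → s • d i ≠ t • d j) →
  ∃ ε : ℝ, 0 < ε ∧ ∀ x ∈ box q ε, x ∈ N → x ≠ q → ¬ TriAt N x

/-- PTH (a `C¹` path of regular points is on one catenary or one horizontal line).

Proof. Let `t₀ ∈ (0,δ)`, `(r,z) = α t₀`.  If CatAt with `m`: for `t` near `t₀`: `(α t).1 = cat r m ((α t).2 - z)` and, differentiating, `(α' t).1 = ct r m ((α t).2 - z) (α' t).2`; so `(α' t).2 ≠ 0` (as `α' t ≠ 0`), the slope `μ t = (α' t).1/(α' t).2` is `ct r m (..)`, and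
`c t = (α t).1/√(1 + μ²) = r/√(1+m²)` (`1 + sinh² = cosh²`), `a t = (α t).2 - c t · arsinh (μ t) = z - c·arsinh m` are constant near `t₀`.  If HorAt: `(α t).2 = z` near `t₀`, `(α' t).2 = 0`.  So `{t ∈ (0,δ) : (α' t).2 = 0}` and its complement in `(0,δ)` are open: one of them is empty.
If `(α' t).2 = 0` on `(0,δ)`: `(α t).2` is constant on `(0,δ)`, by continuity on `[0,δ)`, and `(α' 0).2 = 0` by continuity of `α'`.  Otherwise `c`, `a` are locally constant, so constant on `(0,δ)` (preconnected), `c > 0`: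
`(α t).1 = c cosh (((α t).2 - a)/c)`, `(α' t).1 = sinh (((α t).2 - a)/c) (α' t).2` on `(0,δ)` and by continuity on `[0,δ)`.  So `(α' 0).2 ≠ 0`, `μ₀ = (α' 0).1/(α' 0).2 = sinh (((α 0).2-a)/c)`, `(α 0).1/√(1+μ₀²) = c`, and `cat (α 0).1 μ₀ τ = c cosh (τ/c + ((α 0).2-a)/c)`. -/
def StPTH : Prop := ∀ (N : Set (ℝ × ℝ)) (α α' : ℝ → ℝ × ℝ) (δ : ℝ), 0 < δ →
  (∀ t : ℝ, |t| < δ → HasDerivAt α (α' t) t) → ContinuousOn α' (Ioo (-δ) δ) →
  (∀ t : ℝ, |t| < δ → α' t ≠ 0) → 0 < (α 0).1 →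
  (∀ t : ℝ, 0 < t → t < δ → 0 < (α t).1 ∧ (∀ᶠ s in 𝓝 t, α s ∈ N) ∧
    (CatAt N (α t) ∨ HorAt N (α t))) →
  ((α' 0).2 ≠ 0 ∧ ∀ t : ℝ, 0 ≤ t → t < δ →
    (α t).1 = cat (α 0).1 ((α' 0).1 / (α' 0).2) ((α t).2 - (α 0).2)) ∨
  ((α' 0).2 = 0 ∧ ∀ t : ℝ, 0 ≤ t → t < δ → (α t).2 = (α 0).2)

/-- LEG (legs).

Proof. `A = fderiv g q` is injective, so an equivalence; `γ` the local inverse of `g` at `0` (`C¹` near `0`, `γ 0 = q`), `v i = A⁻¹ (d i) ≠ 0`.  `α_i t = γ (t d_i)`, `|t| < δ`: `C¹`, `α_i 0 = q`, derivative `v i` at `0`, derivative nonzero for small `δ`, `α_i t ∈ N` for `t ≥ 0`, `α_i t ≠ q` for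
`t ≠ 0`, in the given box for small `δ`, first coordinate positive.  PTH: either `(v i).2 ≠ 0` and `α_i` runs on the catenary of slope `(v i).1/(v i).2` through `q`, or `(v i).2 = 0` and on the horizontal line.  If `(v i).2 > 0` then `(α_i t).2` is strictly increasing for `t ∈ [0,δ')`, so the points
`α_i t` satisfy `onLeg q (v i)`, and conversely (intermediate value theorem) every `x` with `onLeg q (v i) x` and `x.2 - q.2` small is some `α_i t`; similarly for `(v i).2 < 0` and for `(v i).2 = 0` (then `(v i).1 ≠ 0` and `(α_i t).1` is strictly monotone).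
Small box: every `x ∈ N` near `q` is `γ (g x)`, `g x = t d_i`, with small `t`.  (The claim for `x = q`: `q ∈ N ↔ k ≥ 1`, and `onLeg q (v i) q` holds as `cat r m 0 = r`.)
Hypotheses: hPTH. -/
def StLEG : Prop := ∀ (N : Set (ℝ × ℝ)) (q : ℝ × ℝ) (k : ℕ) (d : Fin k → ℝ × ℝ)
  (g : ℝ × ℝ → ℝ × ℝ), RayAt N q d g → 0 < q.1 → (∀ i, d i ≠ 0) →
  (∃ ε : ℝ, 0 < ε ∧ ∀ x ∈ box q ε, x ∈ N → x ≠ q → CatAt N x ∨ HorAt N x) →
  ∃ v : Fin k → ℝ × ℝ, (∀ i, fderiv ℝ g q (v i) = d i) ∧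
    ∃ ε : ℝ, 0 < ε ∧ ∀ x ∈ box q ε, x ∈ N ↔ ∃ i, onLeg q (v i) x

/-- NET (the meridian section is a network).

Proof. `N = Mer S`.  For `(r,z) ∈ N` with `r > 0`, `p = pt r 0 z`; `p ∈ circ r0 0 ∪ circ r1 h` iff `(r,z) = (r0,0)` or `(r1,h)`.  If not: `p` is regular (REG: CatAt or HorAt) or a `Y` point (CHT: TriAt); `T` is excluded by TYP (1).  On the axis: not in `Γ`, not `Y`, not `T` (TYP), REG (2).
At a `Y` point `q`: CHT gives `TriAt`, in particular `RayAt` with `td`; by NBR the points of `N` near `q` (near enough to avoid `(r0,0)`, `(r1,h)` and the axis) are not TriAt, so they are CatAt or HorAt; LEG: `v i` with `fderiv g q (v i) = td i`, `|v i| = 1` (isometric), `v 0 + v 1 + v 2 = 0` (injective, `∑ td i = 0`): `YAt`.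
At `(r0,0)`, `(r1,h)`: BdyP, CHT (2), NBR and LEG with `k = 1`: `EndAt`.  Compactness: MER.
Hypotheses: hMER hREG hCHT hNBR hLEG hTYP. -/
def StNET : Prop := ∀ (S : Set E3) (r0 r1 h : ℝ), 0 < r0 → 0 < r1 → 0 < h →
  MPS S (circ r0 0 ∪ circ r1 h) → RotInv S →
  Net (Mer S) r0 r1 h ∧
  ∀ r z : ℝ, 0 < r → pt r 0 z ∈ S → pt r 0 z ∉ circ r0 0 ∪ circ r1 h →
    ModelAt S Ycone (pt r 0 z) → YAt (Mer S) (r, z)

end Pool.Agent.Helper31.CY
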